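import Pool.Agent.Helper634.Node.Piece

/-!
Existence of a cyclic word with nonzero piece.
-/

set_option autoImplicit false
set_option linter.unusedSectionVars false

namespace Pool.Agent.Helper634.Node

section

variable {E G : Type*} [Ring E] [AddCommGroup G] [Module E G] (x y : G →ₗ[E] G)
variable [IsArtinian E G] [IsNoetherian E G]

theorem finite_of_chain {S : Set (Submodule E G)} (h : IsChain (· ≤ ·) S) : S.Finite := by
  classical
  let _ := h.linearOrder
  have : WellFoundedLT S := by
    constructor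
    exact InvImage.wf (Subtype.val : S → Submodule E G) (wellFounded_lt (α := Submodule E G))
  have : WellFoundedGT S := by
    constructor
    exact InvImage.wf (Subtype.val : S → Submodule E G) (wellFounded_gt (α := Submodule E G))
  have : Finite S := Finite.of_wellFoundedLT_wellFoundedGT S
  exact Set.toFinite S

theorem finite_words (hyx : ∀ g, y (x g) = 0) (W : ℕ → ℕ → Lt) :
    (Set.range fun n => LPs x y (W n)).Finite := by
  apply finite_of_chain
  rintro _ ⟨n, rfl⟩ _ ⟨m, rfl⟩ hne
  by_cases hs : Sep (W n) (W m)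
  · rcases sep_order x y hyx hs with h | h
    · exact Or.inl (h.trans (LMs_le_LPs x y hyx _))
    · exact Or.inr (h.trans (LMs_le_LPs x y hyx _))
  · exact absurd ((eff_of_not_sep hs).LPs_eq x y) hne

theorem eff_of_eq (hyx : ∀ g, y (x g) = 0) {w w' : ℕ → Lt}
    (h : ¬ LPs x y w ≤ LMs x y w) (h' : ¬ LPs x y w' ≤ LMs x y w')
    (he : LPs x y w = LPs x y w') : Eff w w' := by
  apply eff_of_not_sep
  intro hs
  rcases sep_order x y hyx hs with h1 | h1
  · exact h' (by rw [← he]; exact h1)
  · exact h (by rw [he]; exact h1)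

theorem Eff.of_sw {w w' : ℕ → Lt} (h : Eff (fun k => (w k).sw) (fun k => (w' k).sw)) :
    Eff w w' := by
  intro n hn
  have := h n fun m hm h' => hn m hm (Lt.sw_eq_e.1 h')
  have h2 := congrArg Lt.sw this
  simpa using h2

theorem pigeon (hxy : ∀ g, x (y g) = 0) (hyx : ∀ g, y (x g) = 0) (Ls Rs : ℕ → ℕ → Lt)
    (h : ∀ n, Live x y (Ls n) (Rs n)) :
    ∃ n n', n < n' ∧ Eff (Ls n) (Ls n') ∧ Eff (Rs n) (Rs n') := by
  have f1 := finite_words x y hyx Ls
  have f2 := finite_words y x hxy (fun n k => (Rs n k).sw)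
  have := f1.to_subtype
  have := f2.to_subtype
  obtain ⟨n, m, hne, he⟩ := Finite.exists_ne_map_eq_of_infinite
    (fun n : ℕ => ((⟨_, n, rfl⟩ : Set.range fun n => LPs x y (Ls n)),
      (⟨_, n, rfl⟩ : Set.range fun n => LPs y x fun k => (Rs n k).sw)))
  have h1 : LPs x y (Ls n) = LPs x y (Ls m) := congrArg (fun p => (p.1 : Submodule E G)) he
  have h2 : (LPs y x fun k => (Rs n k).sw) = LPs y x fun k => (Rs m k).sw :=
    congrArg (fun p => (p.2 : Submodule E G)) he
  have e1 := eff_of_eq x y hyx (h n).gapL (h m).gapL h1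
  have e2 := (eff_of_eq y x hxy (h n).gapR (h m).gapR h2).of_sw
  rcases lt_or_gt_of_ne hne with hlt | hlt
  · exact ⟨n, m, hlt, e1, e2⟩
  · exact ⟨m, n, hlt, e1.symm, e2.symm⟩

variable (hxy : ∀ g, x (y g) = 0) (hyx : ∀ g, y (x g) = 0)

/-- The conclusion: a cyclic word. -/
def HasCyc : Prop :=
  ∃ (q : ℕ) (_ : NeZero q) (c : ZMod q → Lt), (∀ k, c k = Lt.e → k = -1) ∧
    (∀ d : ZMod q, d ≠ 0 → ∃ k, c (k + d) ≠ c k) ∧
    Live x y (fun n : ℕ => c (-1 - n)) (fun n : ℕ => c n)

/-- a periodic bi-infinite word without `e` -/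
theorem hasCyc_of_periodic {z : ℤ → Lt} {q : ℕ} (hq : 0 < q) (hz : Function.Periodic z (q : ℤ))
    (he : ∀ m, z m ≠ Lt.e) (hl : Live x y (fun n : ℕ => z (-1 - n)) (fun n : ℕ => z n)) :
    HasCyc x y := by
  classical
  have hex : ∃ q : ℕ, 0 < q ∧ Function.Periodic z (q : ℤ) := ⟨q, hq, hz⟩
  obtain ⟨h1, h2⟩ := Nat.find_spec hex
  have hmin := fun m => Nat.find_min hex (m := m)
  set p := Nat.find hex with hp
  have hpz : NeZero p := ⟨h1.ne'⟩
  have hc : ∀ m : ℤ, z (((m : ZMod p).val : ℕ) : ℤ) = z m := by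
    intro m
    rw [ZMod.val_intCast]
    have h3 := (h2.int_mul (m / p)) (m % p)
    rw [← h3]
    congr 1
    have := Int.emod_add_mul_ediv m p
    rw [mul_comm]
    exact this
  refine ⟨p, hpz, fun i => z (i.val : ℤ), fun k hk => absurd hk (he _), ?_, ?_⟩
  · intro d hd
    by_contra hcon
    push Not at hcon
    have hd0 : 0 < d.val := Nat.pos_of_ne_zero fun h => hd ((ZMod.val_eq_zero d).1 h)
    refine hmin d.val (ZMod.val_lt d) ⟨hd0, fun m => ?_⟩
    have := hcon (m : ZMod p)
    rw [hc] at this
    rw [← this, ← hc (m + (d.val : ℤ))]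
    congr 2
    push_cast
    rw [ZMod.natCast_zmod_val]
  · have e1 : (fun n : ℕ => z (((-1 - (n : ZMod p) : ZMod p).val : ℕ) : ℤ))
        = fun n : ℕ => z (-1 - n) := by
      funext n
      rw [← hc (-1 - n)]
      push_cast
      rfl
    have e2 : (fun n : ℕ => z ((((n : ZMod p)).val : ℕ) : ℤ)) = fun n : ℕ => z n := by
      funext n
      rw [← hc n]
      push_cast
      rfl
    rw [e1, e2]
    exact hl

/-- a finite word -/
theorem hasCyc_of_finite {L R : ℕ → Lt} (hl : Live x y L R) (hL : L 0 = Lt.e) {q : ℕ}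
    (hR : R q = Lt.e) (hR' : ∀ k < q, R k ≠ Lt.e) : HasCyc x y := by
  have hval : ((-1 : ZMod (q + 1))).val = q := ZMod.val_neg_one q
  have hc1 : ∀ k : ZMod (q + 1), R k.val = Lt.e → k = -1 := by
    intro k hk
    apply ZMod.val_injective
    rw [hval]
    by_contra hne
    have : k.val < q := by
      have := ZMod.val_lt k
      omega
    exact hR' _ this hk
  refine ⟨q + 1, inferInstance, fun i => R i.val, hc1, ?_, ?_⟩
  · intro d hd
    refine ⟨-1, ?_⟩
    show R (-1 + d).val ≠ R (-1 : ZMod (q + 1)).val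
    rw [hval, hR]
    intro h
    apply hd
    have h2 := hc1 _ h
    exact (add_eq_left).1 h2
  · have key : ∀ n : ℕ, n = 0 → R (-1 - (n : ZMod (q + 1))).val = Lt.e := by
      rintro n rfl
      rw [Nat.cast_zero, sub_zero, hval, hR]
    have key2 : Eff L (fun n : ℕ => R (-1 - (n : ZMod (q + 1))).val) := by
      intro n hn
      rcases Nat.eq_zero_or_pos n with h0 | hpos
      · rw [h0, hL]
        exact (key 0 rfl).symm
      · exact absurd hL (hn 0 hpos)
    refine hl.congr x y key2 ?_
    · intro n hn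
      have hnq : n ≤ q := by
        by_contra hcon
        exact hn q (by omega) hR
      show R n = R ((n : ZMod (q + 1)).val)
      rw [ZMod.val_natCast, Nat.mod_eq_of_lt (by omega)]

/-- words after moving `n` letters to the left -/
def mvL (L : ℕ → Lt) (n : ℕ) : ℕ → Lt := fun k => L (n + k)

/-- words after moving `n` letters to the left -/
def mvR (L R : ℕ → Lt) (n : ℕ) : ℕ → Lt := fun k => if k < n then L (n - 1 - k) else R (k - n)

theorem step_mv (L R : ℕ → Lt) (n : ℕ) :
    Step (L n) (mvL L (n + 1)) (mvR L R (n + 1)) (mvL L n) (mvR L R n) where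
  l0 := by simp [mvL]
  l k := by simp only [mvL]; congr 1; omega
  r0 := by simp [mvR]
  r k := by
    simp only [mvR]
    by_cases h : k < n
    · rw [if_pos h, if_pos (by omega)]; congr 1; omega
    · rw [if_neg h, if_neg (by omega)]; congr 1; omega

include hxy hyx in
theorem live_mv {L R : ℕ → Lt} (hl : Live x y L R) (n : ℕ) (hn : ∀ k < n, L k ≠ Lt.e) :
    Live x y (mvL L n) (mvR L R n) := by
  induction n with
  | zero =>
    have e1 : mvL L 0 = L := by funext k; simp [mvL]
    have e2 : mvR L R 0 = R := by funext k; simp [mvR]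
    rw [e1, e2]; exact hl
  | succ n ih =>
    exact (ih fun k hk => hn k (by omega)).left x y hxy hyx (hn n (by omega)) (step_mv L R n)

include hxy hyx in
theorem live_mv' {L R : ℕ → Lt} (hl : Live x y L R) (n : ℕ) (hn : ∀ k < n, R k ≠ Lt.e) :
    Live x y (mvR R L n) (mvL R n) := by
  induction n with
  | zero =>
    have e1 : mvL R 0 = R := by funext k; simp [mvL]
    have e2 : mvR R L 0 = L := by funext k; simp [mvR]
    rw [e1, e2]; exact hl
  | succ n ih =>
    have hs := step_mv R L n
    exact (ih fun k hk => hn k (by omega)).right x y hxy hyx (hn n (by omega))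
      ⟨hs.r0, hs.r, hs.l0, hs.l⟩

include hxy hyx in
theorem exists_cyc [Nontrivial G] : HasCyc x y := by
  classical
  obtain ⟨L, R, hl⟩ := exists_live x y
  by_cases hL : ∀ n, L n ≠ Lt.e
  · -- no end on the left: periodic
    obtain ⟨n, n', hlt, hE1, hE2⟩ := pigeon x y hxy hyx (mvL L) (mvR L R)
      fun n => live_mv x y hxy hyx hl n fun k _ => hL k
    obtain ⟨q, rfl⟩ : ∃ q, n' = n + q := ⟨n' - n, by omega⟩
    have hq : 0 < q := by omega
    have a1 : ∀ k, L (n + k) = L (n + q + k) := fun k => hE1 k fun m _ => hL _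
    have a2 : ∀ k, mvR L R n k = mvR L R (n + q) k ∧ mvR L R n k ≠ Lt.e := by
      intro k
      induction k using Nat.strong_induction_on with
      | _ k ih =>
        have h1 := hE2 k fun m hm => (ih m hm).2
        refine ⟨h1, ?_⟩
        rw [h1]
        by_cases hk : k < q
        · simp only [mvR]
          rw [if_pos (by omega)]
          exact hL _
        · have h2 := (ih (k - q) (by omega)).2
          simp only [mvR] at h2 ⊢
          by_cases hk2 : k < n + q
          · rw [if_pos hk2]; exact hL _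
          · rw [if_neg hk2]
            rw [if_neg (by omega)] at h2
            have : k - (n + q) = k - q - n := by omega
            rw [this]; exact h2
    have a3 : ∀ k, mvR L R n (k + q) = mvR L R n k := by
      intro k
      rw [(a2 (k + q)).1]
      simp only [mvR]
      by_cases hk : k < n
      · rw [if_pos (by omega), if_pos hk]; congr 1; omega
      · rw [if_neg (by omega), if_neg hk]; congr 1; omega
    have a4 : ∀ k < q, mvR L R n k = L (n + (q - 1 - k)) := by
      intro k hk
      rw [(a2 k).1]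
      simp only [mvR]
      rw [if_pos (by omega)]; congr 1; omega
    let z : ℤ → Lt := fun m => match m with
      | Int.ofNat k => mvR L R n k
      | Int.negSucc k => L (n + k)
    have z1 : ∀ k : ℕ, z k = mvR L R n k := fun k => rfl
    have z2 : ∀ k : ℕ, z (-1 - k) = L (n + k) := by
      intro k
      have : (-1 - (k : ℤ)) = Int.negSucc k := by rw [Int.negSucc_eq]; ring
      rw [this]
    refine hasCyc_of_periodic x y (z := z) hq ?_ ?_ ?_
    · intro m
      rcases le_or_gt 0 m with hm | hm
      · obtain ⟨k, rfl⟩ := Int.eq_ofNat_of_zero_le hm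
        rw [z1, ← a3 k, ← z1 (k + q)]
        push_cast
        rfl
      · obtain ⟨k, rfl⟩ : ∃ k : ℕ, m = -1 - k := ⟨(-1 - m).toNat, by omega⟩
        rw [z2]
        by_cases hk : k < q
        · have e : (-1 - (k : ℤ) + q) = ((q - 1 - k : ℕ) : ℤ) := by omega
          rw [e, z1, a4 _ (by omega)]
          congr 1; omega
        · have e : (-1 - (k : ℤ) + q) = -1 - ((k - q : ℕ) : ℤ) := by omega
          rw [e, z2, a1 (k - q)]
          congr 1; omega
    · intro m
      rcases le_or_gt 0 m with hm | hm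
      · obtain ⟨k, rfl⟩ := Int.eq_ofNat_of_zero_le hm
        rw [z1]; exact (a2 k).2
      · obtain ⟨k, rfl⟩ : ∃ k : ℕ, m = -1 - k := ⟨(-1 - m).toNat, by omega⟩
        rw [z2]; exact hL _
    · have := live_mv x y hxy hyx hl n fun k _ => hL k
      have e1 : (fun k : ℕ => z (-1 - k)) = mvL L n := funext z2
      have e2 : (fun k : ℕ => z k) = mvR L R n := funext z1
      rw [e1, e2]
      exact this
  · push Not at hL
    obtain ⟨m, hm, hm'⟩ : ∃ m, L m = Lt.e ∧ ∀ k < m, L k ≠ Lt.e :=
      ⟨Nat.find hL, Nat.find_spec hL, fun k hk => Nat.find_min hL hk⟩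
    have hl' := live_mv x y hxy hyx hl m hm'
    set L' := mvL L m with hL'
    set R' := mvR L R m with hR'
    have hL0 : L' 0 = Lt.e := by rw [hL']; simpa [mvL] using hm
    by_cases hR : ∀ n, R' n ≠ Lt.e
    · exfalso
      obtain ⟨n, n', hlt, hE1, -⟩ := pigeon x y hxy hyx (fun n => mvR R' L' n)
        (fun n => mvL R' n) fun n => live_mv' x y hxy hyx hl' n fun k _ => hR k
      have h1 := hE1.symm n ?_
      · simp only [mvR] at h1
        rw [if_pos hlt, if_neg (lt_irrefl n), Nat.sub_self, hL0] at h1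
        exact hR _ h1
      · intro k hk
        simp only [mvR]
        rw [if_pos (by omega)]
        exact hR _
    · push Not at hR
      exact hasCyc_of_finite x y hl' hL0 (q := Nat.find hR) (Nat.find_spec hR)
        fun k hk => Nat.find_min hR hk

end

end Pool.Agent.Helper634.Node
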