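import Pool.Agent.Helper634.Node.Primal

/-!
The splitting lemma, for maps out of the module.
-/

set_option autoImplicit false
set_option linter.unusedSectionVars false
set_option linter.unusedVariables false

namespace Pool.Agent.Helper634.Node

section

variable {K E G V : Type*} [Field K] [Ring E] [Algebra K E] [AddCommGroup G] [Module K G]
  [Module E G] [IsScalarTower K E G] [AddCommGroup V] [Module K V] (x y : G →ₗ[E] G)

/-- the dual relation of a letter -/
def Dl (c : Lt) (f f' : G →ₗ[K] V) : Prop :=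
  match c with
  | .a => ∀ u, f' (x u) = f u
  | .b => ∀ u, f' u = f (y u)
  | .e => (∀ u, f (y u) = 0) ∧ ∀ u, f' (x u) = 0

theorem Dl_mirror {c : Lt} {f f' : G →ₗ[K] V} : Dl y x c.sw f' f ↔ Dl x y c f f' := by
  cases c
  · exact ⟨fun h u => (h u).symm, fun h u => (h u).symm⟩
  · exact ⟨fun h u => (h u).symm, fun h u => (h u).symm⟩
  · exact and_comm

theorem Dl.zero (c : Lt) : Dl x y c (0 : G →ₗ[K] V) 0 := by
  cases c <;> simp [Dl]

theorem Dl.add {c : Lt} {f f' g g' : G →ₗ[K] V} (h : Dl x y c f f') (h' : Dl x y c g g') :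
    Dl x y c (f + g) (f' + g') := by
  cases c
  · exact fun u => by rw [LinearMap.add_apply, LinearMap.add_apply, h u, h' u]
  · exact fun u => by rw [LinearMap.add_apply, LinearMap.add_apply, h u, h' u]
  · exact ⟨fun u => by rw [LinearMap.add_apply, h.1 u, h'.1 u, add_zero],
      fun u => by rw [LinearMap.add_apply, h.2 u, h'.2 u, add_zero]⟩

theorem Dl.neg {c : Lt} {f f' : G →ₗ[K] V} (h : Dl x y c f f') : Dl x y c (-f) (-f') := by
  cases c
  · exact fun u => by rw [LinearMap.neg_apply, LinearMap.neg_apply, h u]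
  · exact fun u => by rw [LinearMap.neg_apply, LinearMap.neg_apply, h u]
  · exact ⟨fun u => by rw [LinearMap.neg_apply, h.1 u, neg_zero],
      fun u => by rw [LinearMap.neg_apply, h.2 u, neg_zero]⟩

/-- related vectors have the same values under related functionals -/
theorem Dl.apply {c : Lt} (hc : c ≠ Lt.e) {f f' : G →ₗ[K] V} (h : Dl x y c f f') {u u' : G}
    (hr : (u, u') ∈ Rl x y c) : f' u' = f u := by
  cases c with
  | a => rw [← (mem_Rl_a x y).1 hr]; exact h u
  | b => rw [← (mem_Rl_b x y).1 hr]; exact h u'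
  | e => exact absurd rfl hc

variable [IsArtinian E G] [IsNoetherian E G]

theorem dual_pred (hyx : ∀ g, y (x g) = 0) {c : Lt} {L R L' R' : ℕ → Lt}
    (h : Step c L R L' R') (N : Submodule E G) (f' : G →ₗ[K] V)
    (h1 : ∀ u ∈ fp x y c N, f' u = 0) (h2 : ∀ u ∈ RMs x y R', f' u = 0) :
    ∃ f : G →ₗ[K] V, Dl x y c f f' ∧ (∀ u ∈ N, f u = 0) ∧ ∀ u ∈ RMs x y R, f u = 0 := by
  have hR := h.RMs x y
  cases c with
  | a =>
    refine ⟨f'.comp (x.restrictScalars K), fun u => rfl, fun u hu => ?_, fun u hu => ?_⟩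
    · exact h1 _ (Submodule.mem_map_of_mem hu)
    · rw [hR] at hu
      exact h2 _ hu
  | b =>
    obtain ⟨f, hf, hf'⟩ := extend_along (y.restrictScalars K) (N.restrictScalars K) f'
      (fun u hu => h1 u hu)
    refine ⟨f, fun u => (hf u).symm, hf', fun u hu => ?_⟩
    rw [hR] at hu
    obtain ⟨u', hu', rfl⟩ := hu
    rw [show f (y u') = f' u' from hf u']
    exact h2 _ hu'
  | e =>
    refine ⟨0, ⟨fun u => rfl, fun u => h1 _ (hyx u)⟩, fun u _ => rfl, fun u _ => rfl⟩

theorem dual_succ (hxy : ∀ g, x (y g) = 0) {c : Lt} {L R L' R' : ℕ → Lt}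
    (h : Step c L R L' R') (N : Submodule E G) (f : G →ₗ[K] V)
    (h1 : ∀ u ∈ fp y x c.sw N, f u = 0) (h2 : ∀ u ∈ LMs x y L, f u = 0) :
    ∃ f' : G →ₗ[K] V, Dl x y c f f' ∧ (∀ u ∈ N, f' u = 0) ∧ ∀ u ∈ LMs x y L', f' u = 0 := by
  have h2' : ∀ u ∈ RMs y x (fun k => (L k).sw), f u = 0 := by
    unfold RMs
    simpa only [Lt.sw_sw] using h2
  obtain ⟨f', hd, hN, hL⟩ := dual_pred y x hxy h.mirror N f h1 h2'
  refine ⟨f', (Dl_mirror x y).1 hd, hN, ?_⟩
  unfold RMs at hL
  simpa only [Lt.sw_sw] using hL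

end

section

variable {K E G V : Type*} [Field K] [Ring E] [Algebra K E] [AddCommGroup G] [Module K G]
  [Module E G] [IsScalarTower K E G] [AddCommGroup V] [Module E V] [Module K V]
  [IsScalarTower K E V] {x y : G →ₗ[E] G} {q : ℕ} {c : ZMod q → Lt} {τ : ZMod q → V ≃ₗ[E] V}
  {Γ : ZMod q → Submodule E (G × V)} [IsArtinian E G] [IsNoetherian E G] [NeZero q]

/-- the map `τ i`, over `K` -/
def tk (K : Type*) [Field K] [Algebra K E] [Module K V] [IsScalarTower K E V]
    (τ : ZMod q → V ≃ₗ[E] V) (i : ZMod q) : V →ₗ[K] V := (τ i).toLinearMap.restrictScalars K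

/-- the inverse of `τ i`, over `K` -/
def tk' (K : Type*) [Field K] [Algebra K E] [Module K V] [IsScalarTower K E V]
    (τ : ZMod q → V ≃ₗ[E] V) (i : ZMod q) : V →ₗ[K] V :=
  (τ i).symm.toLinearMap.restrictScalars K

theorem tk_apply (i : ZMod q) (v : V) : tk K τ i v = τ i v := rfl
theorem tk'_apply (i : ZMod q) (v : V) : tk' K τ i v = (τ i).symm v := rfl

theorem tk_tk' (i : ZMod q) (f : G →ₗ[K] V) : (tk K τ i).comp ((tk' K τ i).comp f) = f := by
  ext u
  exact (τ i).apply_symm_apply _

/-- tuples of functionals in the dual relations -/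
def Wd (K : Type*) [Field K] [Algebra K E] [Module K G] [IsScalarTower K E G] [Module K V]
    [IsScalarTower K E V] (x y : G →ₗ[E] G) (c : ZMod q → Lt) (τ : ZMod q → V ≃ₗ[E] V) :
    AddSubgroup ((ZMod q → G →ₗ[K] V) × (ZMod q → G →ₗ[K] V)) where
  carrier := {p | ∀ i, Dl x y (c i) ((tk K τ i).comp (p.1 i)) (p.2 (i + 1))}
  zero_mem' := fun i => by
    show Dl x y (c i) ((tk K τ i).comp 0) 0
    rw [LinearMap.comp_zero]; exact Dl.zero x y _
  add_mem' := fun {p p'} h h' i => by
    show Dl x y (c i) ((tk K τ i).comp (p.1 i + p'.1 i)) (p.2 (i + 1) + p'.2 (i + 1))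
    rw [LinearMap.comp_add]; exact (h i).add x y (h' i)
  neg_mem' := fun {p} h i => by
    show Dl x y (c i) ((tk K τ i).comp (-(p.1 i))) (-(p.2 (i + 1)))
    rw [LinearMap.comp_neg]; exact (h i).neg x y

/-- tuples of functionals vanishing on given sets -/
def Van (K : Type*) [Field K] [Algebra K E] [Module K G] [IsScalarTower K E G] (V : Type*)
    [AddCommGroup V] [Module K V] (N N' : ZMod q → Submodule E G) :
    AddSubgroup (ZMod q → G →ₗ[K] V) where
  carrier := {p | ∀ i u, (u ∈ N i ∨ u ∈ N' i) → p i u = 0}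
  zero_mem' := fun i u _ => rfl
  add_mem' := fun {p p'} h h' i u hu => by
    show p i u + p' i u = 0
    rw [h i u hu, h' i u hu, add_zero]
  neg_mem' := fun {p} h i u hu => by
    show - p i u = 0
    rw [h i u hu, neg_zero]

theorem Sys.dual (h : Sys x y c τ Γ) (hxy : ∀ g, x (y g) = 0) (hyx : ∀ g, y (x g) = 0) :
    ∃ f : ZMod q → G →ₗ[K] V, (∀ i u v, (u, v) ∈ Γ i → f i u = v) ∧
      (∀ i, ∀ u ∈ LMs x y (lw c i), f i u = 0) ∧
      ∀ i, Dl x y (c i) ((tk K τ i).comp (f i)) (f (i + 1)) := by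
  classical
  -- extensions
  have h1 : ∀ i, ∃ f : G →ₗ[K] V, (∀ u v, (u, v) ∈ Γ i → f u = v) ∧
      (∀ u ∈ LMs x y (lw c i), f u = 0) ∧ ∀ u ∈ RMs x y (rw' c i), f u = 0 := fun i => by
    obtain ⟨f, hf⟩ := extend ((Γ i).restrictScalars K ⊔
      (((LMs x y (lw c i)).restrictScalars K).prod ⊥ ⊔
        ((RMs x y (rw' c i)).restrictScalars K).prod ⊥)) (fun v hv => by
        obtain ⟨⟨p1, p2⟩, hp, r, hr0, he⟩ := Submodule.mem_sup.1 hv
        obtain ⟨⟨l1, l2⟩, hl, ⟨r1, r2⟩, hr, rfl⟩ := Submodule.mem_sup.1 hr0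
        have e1 : p1 + (l1 + r1) = 0 := congrArg Prod.fst he
        have e2 : p2 + (l2 + r2) = v := congrArg Prod.snd he
        have e3 : l2 = 0 := (Submodule.mem_bot K).1 hl.2
        have e4 : r2 = 0 := (Submodule.mem_bot K).1 hr.2
        have hp' : (p1, p2) ∈ Γ i := hp
        have hN := h.mem_Np i _ _ hp'
        have hl1 : l1 ∈ LMs x y (lw c i) := hl.1
        have hr1 : r1 ∈ RMs x y (rw' c i) := hr.1
        have a1 : r1 ∈ LPs x y (lw c i) := by
          have : r1 = -p1 - l1 := by
            have := eq_neg_of_add_eq_zero_right e1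
            rw [← this]; abel
          rw [this]
          exact sub_mem (neg_mem hN.1) (LMs_le_LPs x y hyx _ hl1)
        have a2 : l1 ∈ RPs x y (rw' c i) := by
          have : l1 = -p1 - r1 := by
            have := eq_neg_of_add_eq_zero_right e1
            rw [← this]; abel
          rw [this]
          exact sub_mem (neg_mem hN.2) (LMs_le_LPs y x hxy _ hr1)
        have a3 : p1 ∈ Nm x y (lw c i) (rw' c i) := by
          have : p1 = -(l1 + r1) := eq_neg_of_add_eq_zero_left e1
          rw [this]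
          exact neg_mem (Submodule.add_mem_sup ⟨hl1, a2⟩ ⟨a1, hr1⟩)
        have a4 : p2 = 0 := (h.zero_iff i _ _ hp').2 a3
        rw [← e2, a4, e3, e4, add_zero, add_zero])
    refine ⟨f, fun u v huv => hf _ _ (Submodule.mem_sup_left huv), fun u hu => hf _ _ ?_,
      fun u hu => hf _ _ ?_⟩
    · exact Submodule.mem_sup_right (Submodule.mem_sup_left ⟨hu, Submodule.zero_mem _⟩)
    · exact Submodule.mem_sup_right (Submodule.mem_sup_right ⟨hu, Submodule.zero_mem _⟩)
  choose f hf hfL hfR using h1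
  -- successors
  have h2 : ∀ i, ∃ g : G →ₗ[K] V, Dl x y (c i) ((tk K τ i).comp (f i)) g ∧
      (∀ u v, (u, v) ∈ Γ (i + 1) → g u = v) ∧
      (∀ u ∈ LMs x y (lw c (i + 1)), g u = 0) ∧
      ∀ u ∈ RMs x y (rw' c (i + 1)), g u = 0 := fun i => by
    have hst := step_cyc c i
    by_cases hc : c i = Lt.e
    · refine ⟨f (i + 1), ?_, hf _, hfL _, hfR _⟩
      rw [hc]
      refine ⟨fun u => ?_, fun u => ?_⟩
      · show τ i (f i (y u)) = 0
        rw [hfR i (y u), map_zero]
        rw [hst.RMs x y, hc]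
        exact ⟨u, rfl⟩
      · apply hfL
        rw [hst.LMs x y, hc]
        exact ⟨u, rfl⟩
    · obtain ⟨g, hg1, hg2, hg3⟩ := dual_succ x y hxy hst (RMs x y (rw' c (i + 1)))
        ((tk K τ i).comp (f i)) (fun u hu => by
          have : u ∈ RMs x y (rw' c i) := by
            rw [hst.RMs x y, fm_eq_fp y x (fun h => hc (Lt.sw_eq_e.1 h))]
            exact hu
          show τ i (f i u) = 0
          rw [hfR i u this, map_zero]) (fun u hu => by
          show τ i (f i u) = 0
          rw [hfL i u hu, map_zero])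
      refine ⟨g, hg1, fun u' v' huv => ?_, hg3, hg2⟩
      obtain ⟨u, hu, hr⟩ := p2 x y hc hst (h.mem_Np _ _ _ huv)
      obtain ⟨v, hv⟩ := h.ex_v i u hu
      have a1 := h.trans i u v u' hc hv hr (h.mem_Np _ _ _ huv)
      have a2 := h.uniq huv a1
      rw [hg1.apply x y hc hr]
      show τ i (f i u) = v'
      rw [hf i u v hv, a2]
  choose g hg1 hg2 hg3 hg4 using h2
  let f' : ZMod q → G →ₗ[K] V := fun j => g (j - 1)
  have hf' : ∀ i, f' (i + 1) = g i := fun i => by simp only [f', add_sub_cancel_right]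
  have hW : (f, f') ∈ Wd K x y c τ := fun i => by
    show Dl x y (c i) ((tk K τ i).comp (f i)) (f' (i + 1))
    rw [hf']; exact hg1 i
  have k1 : ∀ i u v, (u, v) ∈ Γ i → f' i u = v := fun i u v huv => by
    have := hg2 (i - 1) u v
    rw [sub_add_cancel] at this
    exact this huv
  have k2 : ∀ i, ∀ u ∈ LMs x y (lw c i), f' i u = 0 := fun i u hu => by
    have := hg3 (i - 1) u
    rw [sub_add_cancel] at this
    exact this hu
  have k3 : ∀ i, ∀ u ∈ RMs x y (rw' c i), f' i u = 0 := fun i u hu => by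
    have := hg4 (i - 1) u
    rw [sub_add_cancel] at this
    exact this hu
  -- decomposition
  have h3 : ∀ i, ∃ α β : G →ₗ[K] V,
      (∀ u ∈ (LPs x y (lw c i)).restrictScalars K, α u = 0) ∧
      (∀ u ∈ (RPs x y (rw' c i)).restrictScalars K, α u = (f' - f) i u) ∧
      (∀ u ∈ (RPs x y (rw' c i)).restrictScalars K, β u = 0) ∧
      (∀ u ∈ (LPs x y (lw c i)).restrictScalars K, β u = (f' - f) i u) ∧
      (f' - f) i = α + β := fun i => by
    apply extend_split
    intro u hu1 hu2
    obtain ⟨v, hv⟩ := h.ex_v i u ⟨hu1, hu2⟩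
    show f' i u - f i u = 0
    rw [k1 i u v hv, hf i u v hv, sub_self]
  choose α β hα1 hα2 hβ1 hβ2 hsum using h3
  obtain ⟨m, hm⟩ := exists_LP_unif x y (fun i => lw c i)
  obtain ⟨n, hn⟩ := exists_LP_unif y x (fun i k => (rw' c i k).sw)
  obtain ⟨F, hF, hFf⟩ := fix_rel (Wd K x y c τ)
    (fun k => Van K V (fun i => LP x y (lw c i) k) fun i => RMs x y (rw' c i))
    (fun k => Van K V (fun i => LP y x (fun n => (rw' c i n).sw) k) fun i => LMs x y (lw c i))
    (Van K V (fun i => LMs x y (lw c i)) fun i => Np x y (lw c i) (rw' c i))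
    (fun h hh => by
      funext i; ext u
      exact hh i u (Or.inl Submodule.mem_top))
    (fun h hh => by
      funext i; ext u
      exact hh i u (Or.inl Submodule.mem_top))
    (fun k p hp => by
      have : ∀ i, ∃ g : G →ₗ[K] V, Dl x y (c i) g (p (i + 1)) ∧
          (∀ u ∈ LP x y (lw c i) k, g u = 0) ∧ ∀ u ∈ RMs x y (rw' c i), g u = 0 := fun i =>
        dual_pred x y hyx (step_cyc c i) (LP x y (lw c i) k) (p (i + 1))
          (fun u hu => hp (i + 1) u (Or.inl (by
            show u ∈ LP x y (lw c (i + 1)) (k + 1)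
            rw [LP_cyc]; exact hu)))
          (fun u hu => hp (i + 1) u (Or.inr hu))
      choose g hg1 hg2 hg3 using this
      refine ⟨fun i => (tk' K τ i).comp (g i), ?_, ?_⟩
      · rintro i u (hu | hu)
        · show (τ i).symm (g i u) = 0
          rw [hg2 i u hu, map_zero]
        · show (τ i).symm (g i u) = 0
          rw [hg3 i u hu, map_zero]
      · intro i
        show Dl x y (c i) ((tk K τ i).comp ((tk' K τ i).comp (g i))) (p (i + 1))
        rw [tk_tk']
        exact hg1 i)
    (fun k p hp => by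
      have : ∀ i, ∃ g : G →ₗ[K] V, Dl x y (c i) ((tk K τ i).comp (p i)) g ∧
          (∀ u ∈ LP y x (fun n => (rw' c (i + 1) n).sw) k, g u = 0) ∧
          ∀ u ∈ LMs x y (lw c (i + 1)), g u = 0 := fun i =>
        dual_succ x y hxy (step_cyc c i) (LP y x (fun n => (rw' c (i + 1) n).sw) k)
          ((tk K τ i).comp (p i))
          (fun u hu => by
            show τ i (p i u) = 0
            rw [hp i u (Or.inl (by
              show u ∈ LP y x (fun n => (rw' c i n).sw) (k + 1)
              rw [RP_cyc]; exact hu)), map_zero])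
          (fun u hu => by
            show τ i (p i u) = 0
            rw [hp i u (Or.inr hu), map_zero])
      choose g hg1 hg2 hg3 using this
      refine ⟨fun j => g (j - 1), ?_, ?_⟩
      · rintro i u (hu | hu)
        · have := hg2 (i - 1) u
          rw [sub_add_cancel] at this
          exact this hu
        · have := hg3 (i - 1) u
          rw [sub_add_cancel] at this
          exact this hu
      · intro i
        show Dl x y (c i) ((tk K τ i).comp (p i)) (g (i + 1 - 1))
        rw [add_sub_cancel_right]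
        exact hg1 i)
    (fun k p hp i u hu => by
      rcases hu with hu | hu
      · exact hp i u (Or.inl (LMs_le_LP x y hyx _ _ hu))
      · exact hp i u (Or.inl (LPs_le x y _ _ hu.1)))
    (fun k p hp i u hu => by
      rcases hu with hu | hu
      · exact hp i u (Or.inr hu)
      · exact hp i u (Or.inl (LPs_le y x _ _ hu.2)))
    m n f f' α β hW
    (fun i u hu => by
      rcases hu with hu | hu
      · exact hα1 i u (by rw [← hm i]; exact hu)
      · rw [hα2 i u (LMs_le_LPs y x hxy _ hu)]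
        show f' i u - f i u = 0
        rw [k3 i u hu, hfR i u hu, sub_self])
    (fun i u hu => by
      rcases hu with hu | hu
      · exact hβ1 i u (by
          show u ∈ LPs y x (fun k => (rw' c i k).sw)
          rw [← hn i]; exact hu)
      · rw [hβ2 i u (LMs_le_LPs x y hyx _ hu)]
        show f' i u - f i u = 0
        rw [k2 i u hu, hfL i u hu, sub_self])
    (funext hsum)
  refine ⟨F, fun i u v huv => ?_, fun i u hu => ?_, hF⟩
  · have := hFf i u (Or.inr (h.mem_Np _ _ _ huv))
    have e : F i u - f i u = 0 := this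
    rw [sub_eq_zero.1 e, hf i u v huv]
  · have := hFf i u (Or.inl hu)
    have e : F i u - f i u = 0 := this
    rw [sub_eq_zero.1 e, hfL i u hu]

end

end Pool.Agent.Helper634.Node
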