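import Mathlib

/-!
Linear selections and extensions, and the fixed point lemma for linear relations.
-/

set_option autoImplicit false
set_option linter.unusedSectionVars false

namespace Pool.Agent.Helper634.Node

section

variable {K G V : Type*} [Field K] [AddCommGroup G] [Module K G] [AddCommGroup V] [Module K V]

theorem select (Z : Submodule K (V × G)) (h : ∀ v, ∃ u, (v, u) ∈ Z) :
    ∃ s : V →ₗ[K] G, ∀ v, (v, s v) ∈ Z := by
  let p : Z →ₗ[K] V := (LinearMap.fst K V G).comp Z.subtype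
  have hp : LinearMap.range p = ⊤ := by
    rw [LinearMap.range_eq_top]
    intro v
    obtain ⟨u, hu⟩ := h v
    exact ⟨⟨(v, u), hu⟩, rfl⟩
  obtain ⟨r, hr⟩ := p.exists_rightInverse_of_surjective hp
  refine ⟨(LinearMap.snd K V G).comp (Z.subtype.comp r), fun v => ?_⟩
  have h1 : (r v).1.1 = v := LinearMap.congr_fun hr v
  have h2 : (v, (r v).1.2) = (r v).1 := Prod.ext h1.symm rfl
  show (v, (r v).1.2) ∈ Z
  rw [h2]
  exact (r v).2

theorem extend (Z : Submodule K (G × V)) (h : ∀ v, ((0 : G), v) ∈ Z → v = 0) :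
    ∃ f : G →ₗ[K] V, ∀ u v, (u, v) ∈ Z → f u = v := by
  let p : Z →ₗ[K] G := (LinearMap.fst K G V).comp Z.subtype
  have hp : LinearMap.ker p = ⊥ := by
    rw [LinearMap.ker_eq_bot']
    rintro ⟨⟨u, v⟩, hz⟩ h0
    have h1 : u = 0 := h0
    subst h1
    have h2 := h v hz
    subst h2
    rfl
  obtain ⟨r, hr⟩ := p.exists_leftInverse_of_injective hp
  refine ⟨(LinearMap.snd K G V).comp (Z.subtype.comp r), fun u v hz => ?_⟩
  have h1 : r u = ⟨(u, v), hz⟩ := LinearMap.congr_fun hr ⟨(u, v), hz⟩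
  show (r u).1.2 = v
  rw [h1]

/-- selection of a linear predecessor -/
theorem select_pred (P : Submodule K (G × G)) (N : Submodule K G) (α : V →ₗ[K] G)
    (h : ∀ v, ∃ u ∈ N, (u, α v) ∈ P) : ∃ β : V →ₗ[K] G, ∀ v, β v ∈ N ∧ (β v, α v) ∈ P := by
  obtain ⟨s, hs⟩ := select
    (N.comap (LinearMap.snd K V G) ⊓
      P.comap ((LinearMap.snd K V G).prod (α.comp (LinearMap.fst K V G))))
    (fun v => by
      obtain ⟨u, hu, hp⟩ := h v
      exact ⟨u, hu, hp⟩)
  exact ⟨s, fun v => ⟨(hs v).1, (hs v).2⟩⟩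

/-- selection of a linear successor -/
theorem select_succ (P : Submodule K (G × G)) (N : Submodule K G) (α : V →ₗ[K] G)
    (h : ∀ v, ∃ u ∈ N, (α v, u) ∈ P) : ∃ β : V →ₗ[K] G, ∀ v, β v ∈ N ∧ (α v, β v) ∈ P := by
  obtain ⟨s, hs⟩ := select
    (N.comap (LinearMap.snd K V G) ⊓
      P.comap ((α.comp (LinearMap.fst K V G)).prod (LinearMap.snd K V G)))
    (fun v => by
      obtain ⟨u, hu, hp⟩ := h v
      exact ⟨u, hu, hp⟩)
  exact ⟨s, fun v => ⟨(hs v).1, (hs v).2⟩⟩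

/-- linear decomposition -/
theorem select_split (A B : Submodule K G) (δ : V →ₗ[K] G) (h : ∀ v, δ v ∈ A ⊔ B) :
    ∃ α β : V →ₗ[K] G, (∀ v, α v ∈ A) ∧ (∀ v, β v ∈ B) ∧ δ = α + β := by
  obtain ⟨s, hs⟩ := select
    (A.comap (LinearMap.snd K V G) ⊓
      B.comap (δ.comp (LinearMap.fst K V G) - LinearMap.snd K V G))
    (fun v => by
      obtain ⟨a, ha, b, hb, e⟩ := Submodule.mem_sup.1 (h v)
      refine ⟨a, ha, ?_⟩
      show δ v - a ∈ B
      rw [← e]; simpa using hb)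
  refine ⟨s, δ - s, fun v => (hs v).1, fun v => (hs v).2, by abel⟩

/-- extension of a functional along a map -/
theorem extend_along (y : G →ₗ[K] G) (N : Submodule K G) (f' : G →ₗ[K] V)
    (h : ∀ u, y u ∈ N → f' u = 0) :
    ∃ f : G →ₗ[K] V, (∀ u, f (y u) = f' u) ∧ ∀ u ∈ N, f u = 0 := by
  obtain ⟨f, hf⟩ := extend (LinearMap.range (y.prod f') ⊔ N.prod ⊥) (fun v hv => by
    obtain ⟨p, hp, r, hr, he⟩ := Submodule.mem_sup.1 hv
    obtain ⟨u, rfl⟩ := hp
    obtain ⟨r1, r2⟩ := r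
    have h1 : y u + r1 = 0 := congrArg Prod.fst he
    have h2 : f' u + r2 = v := congrArg Prod.snd he
    have h3 : r2 = 0 := (Submodule.mem_bot K).1 hr.2
    have h4 : f' u = 0 := h u (by rw [eq_neg_of_add_eq_zero_left h1]; exact N.neg_mem hr.1)
    rw [← h2, h3, h4, add_zero])
  refine ⟨f, fun u => hf _ _ (Submodule.mem_sup_left ⟨u, rfl⟩), fun u hu => hf _ _ ?_⟩
  exact Submodule.mem_sup_right ⟨hu, Submodule.zero_mem _⟩

/-- decomposition of a functional -/
theorem extend_split (A B : Submodule K G) (δ : G →ₗ[K] V) (h : ∀ u, u ∈ A → u ∈ B → δ u = 0) :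
    ∃ α β : G →ₗ[K] V, (∀ u ∈ A, α u = 0) ∧ (∀ u ∈ B, α u = δ u) ∧ (∀ u ∈ B, β u = 0) ∧
      (∀ u ∈ A, β u = δ u) ∧ δ = α + β := by
  obtain ⟨f, hf⟩ := extend (A.prod ⊥ ⊔ B.map (LinearMap.prod LinearMap.id δ)) (fun v hv => by
    obtain ⟨p, hp, r, hr, he⟩ := Submodule.mem_sup.1 hv
    obtain ⟨b, hb, rfl⟩ := hr
    obtain ⟨p1, p2⟩ := p
    have h1 : p1 + b = 0 := congrArg Prod.fst he
    have h2 : p2 + δ b = v := congrArg Prod.snd he
    have h3 : p2 = 0 := (Submodule.mem_bot K).1 hp.2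
    have h4 : δ b = 0 := h b (by rw [eq_neg_of_add_eq_zero_right h1]; exact A.neg_mem hp.1) hb
    rw [← h2, h3, h4, add_zero])
  have hA : ∀ u ∈ A, f u = 0 := fun u hu =>
    hf _ _ (Submodule.mem_sup_left ⟨hu, Submodule.zero_mem _⟩)
  have hB : ∀ u ∈ B, f u = δ u := fun u hu => hf _ _ (Submodule.mem_sup_right ⟨u, hu, rfl⟩)
  refine ⟨f, δ - f, hA, hB, fun u hu => ?_, fun u hu => ?_, by abel⟩
  · rw [LinearMap.sub_apply, hB u hu, sub_self]
  · rw [LinearMap.sub_apply, hA u hu, sub_zero]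

end

section fix

variable {H : Type*} [AddCommGroup H]

theorem fix_rel (W : AddSubgroup (H × H)) (A B : ℕ → AddSubgroup H) (Q : AddSubgroup H)
    (hA0 : ∀ h ∈ A 0, h = 0) (hB0 : ∀ h ∈ B 0, h = 0)
    (hA : ∀ k, ∀ h' ∈ A (k + 1), ∃ h ∈ A k, (h, h') ∈ W)
    (hB : ∀ k, ∀ h ∈ B (k + 1), ∃ h' ∈ B k, (h, h') ∈ W)
    (hAQ : ∀ k, A k ≤ Q) (hBQ : ∀ k, B k ≤ Q) (m n : ℕ) (s t α β : H) (hW : (s, t) ∈ W)
    (hα : α ∈ A m) (hβ : β ∈ B n) (he : t - s = α + β) : ∃ g, (g, g) ∈ W ∧ g - s ∈ Q := by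
  induction m generalizing s t α with
  | zero =>
    rw [hA0 α hα, zero_add] at he
    clear hα
    induction n generalizing s t β with
    | zero =>
      rw [hB0 β hβ, sub_eq_zero] at he
      subst he
      exact ⟨t, hW, by simp⟩
    | succ n ih =>
      obtain ⟨β', hβ', hw⟩ := hB n β hβ
      have e2 : t + β' - (s + β) = β' := by
        have : t = s + β := by rw [← he]; abel
        rw [this]; abel
      obtain ⟨g, hg, hq⟩ := ih (s := s + β) (t := t + β') (β := β') (hW := W.add_mem hW hw)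
        (hβ := hβ') (he := e2)
      refine ⟨g, hg, ?_⟩
      have := Q.add_mem hq (hBQ _ hβ)
      have e : g - s = g - (s + β) + β := by abel
      rw [e]; exact this
  | succ m ih =>
    obtain ⟨α', hα', hw⟩ := hA m α hα
    have e2 : t - α - (s - α') = α' + β := by
      have : t = s + (α + β) := by rw [← he]; abel
      rw [this]; abel
    obtain ⟨g, hg, hq⟩ := ih (s := s - α') (t := t - α) (α := α') (hW := W.sub_mem hW hw)
      (hα := hα') (he := e2)
    refine ⟨g, hg, ?_⟩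
    have := Q.sub_mem hq (hAQ _ hα')
    have e : g - s = g - (s - α') - α' := by abel
    rw [e]; exact this

end fix

end Pool.Agent.Helper634.Node
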