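import Mathlib

/-!
Indecomposable modules over commutative domains on which every scalar is nilpotent or bijective.
-/

set_option autoImplicit false
set_option linter.unusedSectionVars false
set_option linter.unusedVariables false

namespace Pool.Agent.Helper634.Node

section

variable {R V : Type*} [CommRing R] [AddCommGroup V] [Module R V]

/-- a submodule maximal among those disjoint from `C` -/
theorem exists_max_disjoint (C : Submodule R V) :
    ∃ M : Submodule R V, Disjoint M C ∧ ∀ M', M ≤ M' → Disjoint M' C → M' = M := by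
  obtain ⟨M, -, hM⟩ := zorn_le_nonempty₀ {M : Submodule R V | Disjoint M C}
    (fun c hc hch y hy => by
      refine ⟨sSup c, ?_, fun z hz => le_sSup hz⟩
      show Disjoint (sSup c) C
      rw [(hch.directedOn).disjoint_sSup_left]
      exact fun a ha => hc ha) ⊥ disjoint_bot_left
  exact ⟨M, hM.prop, fun M' hle hd => le_antisymm (hM.le_of_ge hd hle) hle⟩

/-- Every scalar acts nilpotently or bijectively. -/
theorem nilp_or_bij {E : Type*} [Ring E] [Module E V] [SMulCommClass R E V] [IsNoetherian E V]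
    [IsArtinian E V] (hind : ∀ A A' : Submodule R V, IsCompl A A' → A = ⊥ ∨ A' = ⊥) (p : R) :
    (∃ n : ℕ, ∀ v : V, p ^ n • v = 0) ∨ Function.Bijective (fun v : V => p • v) := by
  let θ : V →ₗ[E] V :=
    { toFun := fun v => p • v
      map_add' := smul_add p
      map_smul' := fun e v => smul_comm p e v }
  have hθ : ∀ (n : ℕ) (v : V), (θ ^ n) v = p ^ n • v := by
    intro n
    induction n with
    | zero => intro v; simp
    | succ n ih =>
      intro v
      rw [pow_succ', Module.End.mul_apply, ih, pow_succ', mul_smul]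
      rfl
  obtain ⟨n, hn⟩ := Filter.eventually_atTop.1 (LinearMap.eventually_isCompl_ker_pow_range_pow θ)
  have hc := hn (n + 1) (by omega)
  let A : Submodule R V := LinearMap.ker (LinearMap.lsmul R V (p ^ (n + 1)))
  let A' : Submodule R V := LinearMap.range (LinearMap.lsmul R V (p ^ (n + 1)))
  have hA : ∀ v, v ∈ A ↔ v ∈ LinearMap.ker (θ ^ (n + 1)) := fun v => by
    show p ^ (n + 1) • v = 0 ↔ (θ ^ (n + 1)) v = 0
    rw [hθ]
  have hA' : ∀ v, v ∈ A' ↔ v ∈ LinearMap.range (θ ^ (n + 1)) := fun v => by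
    constructor
    · rintro ⟨w, rfl⟩
      exact ⟨w, hθ _ _⟩
    · rintro ⟨w, rfl⟩
      exact ⟨w, (hθ _ _).symm⟩
  have hcompl : IsCompl A A' := by
    constructor
    · rw [Submodule.disjoint_def]
      intro v h1 h2
      exact (Submodule.disjoint_def.1 hc.disjoint) v ((hA v).1 h1) ((hA' v).1 h2)
    · rw [codisjoint_iff, Submodule.eq_top_iff']
      intro v
      have : v ∈ LinearMap.ker (θ ^ (n + 1)) ⊔ LinearMap.range (θ ^ (n + 1)) := by
        rw [hc.sup_eq_top]; exact Submodule.mem_top
      obtain ⟨a, ha, b, hb, e⟩ := Submodule.mem_sup.1 this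
      exact Submodule.mem_sup.2 ⟨a, (hA a).2 ha, b, (hA' b).2 hb, e⟩
  rcases hind A A' hcompl with h | h
  · right
    have htop : A' = ⊤ := by
      have := hcompl.sup_eq_top
      rwa [h, bot_sup_eq] at this
    constructor
    · intro v w hvw
      have h1 : v - w ∈ A := by
        show p ^ (n + 1) • (v - w) = 0
        rw [pow_succ, mul_smul, smul_sub]
        have : p • v = p • w := hvw
        rw [this, sub_self, smul_zero]
      rw [h] at h1
      exact sub_eq_zero.1 h1
    · intro v
      have : v ∈ A' := by rw [htop]; exact Submodule.mem_top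
      obtain ⟨w, hw⟩ := this
      refine ⟨p ^ n • w, ?_⟩
      show p • p ^ n • w = v
      rw [smul_smul, ← pow_succ']
      exact hw
  · left
    refine ⟨n + 1, fun v => ?_⟩
    have : p ^ (n + 1) • v ∈ A' := ⟨v, rfl⟩
    rw [h] at this
    exact this

/-- torsion case: the module is cyclic -/
theorem cyclic_of_nilp [Nontrivial V]
    (hind : ∀ A A' : Submodule R V, IsCompl A A' → A = ⊥ ∨ A' = ⊥) (p : R)
    (hp : ∀ r : R, p ∣ r ∨ IsCoprime p r) (hn : ∃ n : ℕ, ∀ v : V, p ^ n • v = 0) :
    ∃ v : V, Submodule.span R {v} = ⊤ := by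
  classical
  obtain ⟨j, hj, hj'⟩ : ∃ j, (∀ v : V, p ^ j • v = 0) ∧ ∀ k < j, ¬ ∀ v : V, p ^ k • v = 0 :=
    ⟨Nat.find hn, Nat.find_spec hn, fun k hk => Nat.find_min hn hk⟩
  have hj0 : j ≠ 0 := by
    rintro rfl
    obtain ⟨v, hv⟩ := exists_ne (0 : V)
    apply hv
    simpa using hj v
  obtain ⟨i, rfl⟩ := Nat.exists_eq_succ_of_ne_zero hj0
  have := hj' i (Nat.lt_succ_self i)
  push Not at this
  obtain ⟨v, hv⟩ := this
  refine ⟨v, ?_⟩
  set C := Submodule.span R {v} with hC
  have hvC : v ∈ C := Submodule.mem_span_singleton_self v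
  -- elements of `C` killed by `p ^ i` are multiples of `p`
  have hdiv : ∀ w ∈ C, p ^ i • w = 0 → ∃ w' ∈ C, p • w' = w := by
    intro w hw h0
    obtain ⟨r, rfl⟩ := Submodule.mem_span_singleton.1 hw
    rcases hp r with ⟨s, rfl⟩ | hco
    · exact ⟨s • v, C.smul_mem _ hvC, by rw [smul_smul]⟩
    · exfalso
      obtain ⟨a, b, hab⟩ := hco
      apply hv
      have : p ^ i • v = (a * p + b * r) • p ^ i • v := by rw [hab, one_smul]
      rw [this, add_smul, mul_smul, mul_smul, ← mul_smul p, ← pow_succ', hj, smul_zero,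
        zero_add, smul_comm r, h0, smul_zero]
  obtain ⟨M, hM, hmax⟩ := exists_max_disjoint C
  have hMC : M ⊔ C = ⊤ := by
    by_contra hne
    obtain ⟨u, hu⟩ : ∃ u, u ∉ M ⊔ C := by
      by_contra hcon
      push Not at hcon
      exact hne (Submodule.eq_top_iff'.2 hcon)
    -- last power outside
    have hex : ∃ k, p ^ k • u ∈ M ⊔ C := ⟨i + 1, by rw [hj]; exact zero_mem _⟩
    have hk0 : Nat.find hex ≠ 0 := by
      intro h0
      have := Nat.find_spec hex
      rw [h0] at this
      simp only [pow_zero, one_smul] at this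
      exact hu this
    obtain ⟨k, hk⟩ := Nat.exists_eq_succ_of_ne_zero hk0
    have h1 : p ^ k • u ∉ M ⊔ C := Nat.find_min hex (by omega)
    have h2 : p • p ^ k • u ∈ M ⊔ C := by
      have := Nat.find_spec hex
      rw [hk] at this
      rwa [smul_smul, ← pow_succ']
    set u1 := p ^ k • u with hu1
    obtain ⟨m, hm, c, hc, hmc⟩ := Submodule.mem_sup.1 h2
    have h3 : p ^ i • c = 0 := by
      have e : p ^ i • c = -(p ^ i • m) := by
        have : p ^ i • (m + c) = 0 := by rw [hmc, smul_smul, ← pow_succ, hj]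
        rw [smul_add] at this
        exact eq_neg_of_add_eq_zero_right this
      have h4 : p ^ i • c ∈ M := by rw [e]; exact M.neg_mem (M.smul_mem _ hm)
      exact Submodule.disjoint_def.1 hM _ h4 (C.smul_mem _ hc)
    obtain ⟨c', hc', rfl⟩ := hdiv c hc h3
    have h5 : p • (u1 - c') = m := by rw [smul_sub, ← hmc]; abel
    have h6 : u1 - c' ∉ M := fun h => h1 (by
      have : u1 = (u1 - c') + c' := by abel
      rw [this]
      exact Submodule.add_mem_sup h hc')
    have h7 : ¬ Disjoint (M ⊔ Submodule.span R {u1 - c'}) C := by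
      intro hd
      have := hmax _ le_sup_left hd
      apply h6
      rw [← this]
      exact Submodule.mem_sup_right (Submodule.mem_span_singleton_self _)
    rw [Submodule.disjoint_def] at h7
    push Not at h7
    obtain ⟨w, hw1, hw2, hw3⟩ := h7
    obtain ⟨m', hm', z, hz, e⟩ := Submodule.mem_sup.1 hw1
    obtain ⟨r, rfl⟩ := Submodule.mem_span_singleton.1 hz
    rcases hp r with ⟨s, rfl⟩ | hco
    · apply hw3
      refine Submodule.disjoint_def.1 hM w ?_ hw2
      rw [← e, mul_comm, mul_smul, h5]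
      exact M.add_mem hm' (M.smul_mem _ hm)
    · obtain ⟨a, b, hab⟩ := hco
      apply h1
      have e1 : u1 - c' = (a * p + b * r) • (u1 - c') := by rw [hab, one_smul]
      have e2 : r • (u1 - c') = w - m' := by rw [← e]; abel
      rw [add_smul, mul_smul, mul_smul, h5, e2] at e1
      have e3 : u1 = (a • m + b • (w - m')) + c' := by rw [← e1]; abel
      rw [e3]
      refine add_mem (add_mem (Submodule.mem_sup_left (M.smul_mem _ hm)) ?_)
        (Submodule.mem_sup_right hc')
      rw [smul_sub]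
      exact sub_mem (Submodule.mem_sup_right (C.smul_mem _ hw2))
        (Submodule.mem_sup_left (M.smul_mem _ hm'))
  rcases hind M C ⟨hM, codisjoint_iff.2 hMC⟩ with h | h
  · rw [h, bot_sup_eq] at hMC
    exact hMC
  · exfalso
    rw [h] at hvC
    apply hv
    rw [(Submodule.mem_bot R).1 hvC, smul_zero]

/-- torsion-free divisible case: endomorphisms commute -/
theorem comm_of_bij [Nontrivial V]
    (hind : ∀ A A' : Submodule R V, IsCompl A A' → A = ⊥ ∨ A' = ⊥)
    [IsDomain R]
    (hb : ∀ r : R, r ≠ 0 → Function.Bijective (fun v : V => r • v)) (φ ψ : V → V)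
    (hφ : ∀ (r : R) (v : V), φ (r • v) = r • φ v)
    (hψ : ∀ (r : R) (v : V), ψ (r • v) = r • ψ v) (m : V) : φ (ψ m) = ψ (φ m) := by
  classical
  obtain ⟨v, hv⟩ := exists_ne (0 : V)
  let C : Submodule R V :=
    { carrier := {m | ∃ s r : R, s ≠ 0 ∧ s • m = r • v}
      zero_mem' := ⟨1, 0, one_ne_zero, by simp⟩
      add_mem' := by
        rintro m m' ⟨s, r, hs, h⟩ ⟨s', r', hs', h'⟩
        refine ⟨s * s', s' * r + s * r', mul_ne_zero hs hs', ?_⟩
        rw [smul_add, add_smul, mul_smul s' r, ← h, mul_smul s r', ← h', smul_smul, smul_smul,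
          mul_comm s' s]
      smul_mem' := by
        rintro t m ⟨s, r, hs, h⟩
        exact ⟨s, t * r, hs, by rw [smul_comm, h, mul_smul]⟩ }
  have hvC : v ∈ C := ⟨1, 1, one_ne_zero, rfl⟩
  have hCdiv : ∀ r : R, r ≠ 0 → ∀ w ∈ C, ∃ w' ∈ C, r • w' = w := by
    rintro r hr w ⟨s, t, hs, h⟩
    obtain ⟨w', hw'⟩ := (hb r hr).2 w
    have hw'' : r • w' = w := hw'
    refine ⟨w', ⟨s * r, t, mul_ne_zero hs hr, ?_⟩, hw'⟩
    rw [mul_smul, hw'', h]
  obtain ⟨M, hM, hmax⟩ := exists_max_disjoint C
  -- `M` is pure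
  have hpure : ∀ r : R, r ≠ 0 → ∀ w, r • w ∈ M → w ∈ M := by
    intro r hr w hw
    let M' : Submodule R V :=
      { carrier := {m | ∃ s : R, s ≠ 0 ∧ s • m ∈ M}
        zero_mem' := ⟨1, one_ne_zero, by rw [smul_zero]; exact M.zero_mem⟩
        add_mem' := by
          rintro m m' ⟨s, hs, h⟩ ⟨s', hs', h'⟩
          refine ⟨s * s', mul_ne_zero hs hs', ?_⟩
          rw [smul_add, mul_smul s s' m', mul_comm, mul_smul]
          exact M.add_mem (M.smul_mem _ h) (M.smul_mem _ h')
        smul_mem' := by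
          rintro t m ⟨s, hs, h⟩
          exact ⟨s, hs, by rw [smul_comm]; exact M.smul_mem _ h⟩ }
    have h1 : M ≤ M' := fun m hm => ⟨1, one_ne_zero, by rw [one_smul]; exact hm⟩
    have h2 : Disjoint M' C := by
      rw [Submodule.disjoint_def]
      rintro m ⟨s, hs, h⟩ hmC
      have := Submodule.disjoint_def.1 hM _ h (C.smul_mem s hmC)
      exact (hb s hs).1 (by show s • m = s • (0 : V); rw [this, smul_zero])
    have h3 := hmax M' h1 h2
    have h4 : w ∈ M' := ⟨r, hr, hw⟩
    rwa [h3] at h4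
  have hMC : M ⊔ C = ⊤ := by
    rw [Submodule.eq_top_iff']
    intro u
    by_contra hu
    have h7 : ¬ Disjoint (M ⊔ Submodule.span R {u}) C := by
      intro hd
      have := hmax _ le_sup_left hd
      apply hu
      apply Submodule.mem_sup_left
      rw [← this]
      exact Submodule.mem_sup_right (Submodule.mem_span_singleton_self _)
    rw [Submodule.disjoint_def] at h7
    push Not at h7
    obtain ⟨w, hw1, hw2, hw3⟩ := h7
    obtain ⟨m', hm', z, hz, e⟩ := Submodule.mem_sup.1 hw1
    obtain ⟨r, rfl⟩ := Submodule.mem_span_singleton.1 hz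
    have hr : r ≠ 0 := by
      rintro rfl
      apply hw3
      refine Submodule.disjoint_def.1 hM w ?_ hw2
      rw [← e, zero_smul, add_zero]
      exact hm'
    obtain ⟨w', hw', rfl⟩ := hCdiv r hr w hw2
    have h8 : w' - u ∈ M := hpure r hr _ (by
      rw [smul_sub, ← e]
      have : m' + r • u - r • u = m' := by abel
      rw [this]; exact hm')
    apply hu
    have : u = -(w' - u) + w' := by abel
    rw [this]
    exact Submodule.add_mem_sup (M.neg_mem h8) hw'
  have hCtop : C = ⊤ := by
    rcases hind M C ⟨hM, codisjoint_iff.2 hMC⟩ with h | h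
    · rwa [h, bot_sup_eq] at hMC
    · exfalso
      rw [h] at hvC
      exact hv ((Submodule.mem_bot R).1 hvC)
  have hin : ∀ m, ∃ s r : R, s ≠ 0 ∧ s • m = r • v := fun m => by
    have : m ∈ C := by rw [hCtop]; exact Submodule.mem_top
    exact this
  have hv1 : φ (ψ v) = ψ (φ v) := by
    obtain ⟨s, r, hs, h⟩ := hin (φ v)
    obtain ⟨s', r', hs', h'⟩ := hin (ψ v)
    apply (hb (s * s') (mul_ne_zero hs hs')).1
    show (s * s') • φ (ψ v) = (s * s') • ψ (φ v)
    have e1 : (s * s') • φ (ψ v) = (r * r') • v := by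
      rw [mul_smul, ← hφ, h', hφ, smul_comm s r', h, smul_smul, mul_comm]
    have e2 : (s * s') • ψ (φ v) = (r * r') • v := by
      rw [mul_comm s s', mul_smul, ← hψ, h, hψ, smul_comm s' r, h', smul_smul]
    rw [e1, e2]
  obtain ⟨s, r, hs, h⟩ := hin m
  apply (hb s hs).1
  show s • φ (ψ m) = s • ψ (φ m)
  rw [← hφ, ← hψ, h, hψ, hφ, hv1, ← hψ, ← hφ, ← h, hφ, hψ]

end

end Pool.Agent.Helper634.Node
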