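import Pool.Agent.Helper634.Node.Line

/-!
Indecomposable modules over `K[X]` with a ring acting with finite length.
-/

set_option autoImplicit false
set_option linter.unusedSectionVars false
set_option linter.unusedVariables false

open Polynomial

namespace Pool.Agent.Helper634.Node

section

variable {K V : Type*} [Field K] [AddCommGroup V] [Module K V] [Module K[X] V]
  [IsScalarTower K K[X] V]

theorem finite_of_cyclic {g : K[X]} (hg : g ≠ 0) {v : V} (hv : Submodule.span K[X] {v} = ⊤)
    (h0 : g • v = 0) : Module.Finite K V := by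
  set g' : K[X] := g * C g.leadingCoeff⁻¹ with hg'
  have hmon : g'.Monic := Polynomial.monic_mul_leadingCoeff_inv hg
  have h0' : g' • v = 0 := by rw [hg', mul_comm, mul_smul, h0, smul_zero]
  have := hmon.finite_quotient
  let φ : K[X] →ₗ[K[X]] V := LinearMap.toSpanSingleton K[X] V v
  have hle : Ideal.span {g'} ≤ LinearMap.ker φ := by
    rw [Ideal.span_le, Set.singleton_subset_iff]
    exact h0'
  let φ' : (K[X] ⧸ Ideal.span {g'}) →ₗ[K[X]] V := Submodule.liftQ _ φ hle
  have hs : Function.Surjective φ' := by
    intro w
    have : w ∈ Submodule.span K[X] {v} := by rw [hv]; exact Submodule.mem_top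
    obtain ⟨r, rfl⟩ := Submodule.mem_span_singleton.1 this
    exact ⟨Submodule.Quotient.mk r, rfl⟩
  exact Module.Finite.of_surjective (φ'.restrictScalars K) hs

theorem comm_of_poly {E : Type*} [Ring E] [Module E V] [SMulCommClass K[X] E V]
    [IsNoetherian E V] [IsArtinian E V] [Nontrivial V]
    (hind : ∀ A A' : Submodule K[X] V, IsCompl A A' → A = ⊥ ∨ A' = ⊥)
    (hinf : ¬ Module.Finite K V) (e e' : E) (v : V) : (e * e' - e' * e) • v = 0 := by
  by_cases hb : ∀ π : K[X], Irreducible π → Function.Bijective (fun v : V => π • v)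
  · have hb' : ∀ r : K[X], r ≠ 0 → Function.Bijective (fun v : V => r • v) := by
      intro r
      refine WfDvdMonoid.induction_on_irreducible r (fun h => absurd rfl h) ?_ ?_
      · rintro u ⟨u, rfl⟩ -
        exact MulAction.bijective u
      · intro a π ha hπ ih _
        have h1 := hb π hπ
        have h2 := ih ha
        have : (fun v : V => (π * a) • v) = (fun v : V => π • v) ∘ fun v : V => a • v := by
          funext v; exact mul_smul _ _ _
        rw [this]
        exact h1.comp h2
    have := comm_of_bij hind hb' (fun v => e • v) (fun v => e' • v)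
      (fun r v => (smul_comm r e v).symm) (fun r v => (smul_comm r e' v).symm) v
    rw [sub_smul, mul_smul, mul_smul, sub_eq_zero]
    exact this
  · exfalso
    push Not at hb
    obtain ⟨π, hπ, hnb⟩ := hb
    rcases nilp_or_bij (E := E) hind π with hn | hbij
    · obtain ⟨w, hw⟩ := cyclic_of_nilp hind π (fun r => by
        by_cases h : π ∣ r
        · exact Or.inl h
        · exact Or.inr ((Irreducible.coprime_iff_not_dvd hπ).2 h)) hn
      obtain ⟨n, hn⟩ := hn
      exact hinf (finite_of_cyclic (pow_ne_zero n hπ.ne_zero) hw (hn w))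
    · exact hnb hbij

end

section

variable {K V E : Type*} [Field K] [AddCommGroup V] [Module K V] [Ring E] [Algebra K E]
  [Module E V] [IsScalarTower K E V]

/-- the version with an automorphism -/
theorem comm_of_aut [IsNoetherian E V] [IsArtinian E V] [Nontrivial V] (T : V ≃ₗ[E] V)
    (hind : ∀ A A' : Submodule K V, (∀ v ∈ A, T v ∈ A ∧ T.symm v ∈ A) →
      (∀ v ∈ A', T v ∈ A' ∧ T.symm v ∈ A') → IsCompl A A' → A = ⊥ ∨ A' = ⊥)
    (hinf : ¬ Module.Finite K V) (e e' : E) (v : V) : (e * e' - e' * e) • v = 0 := by
  let T' : Module.End E V := T.toLinearMap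
  let _ : Module K[X] V := Module.compHom V (Polynomial.aeval (R := K) T').toRingHom
  have hdef : ∀ (p : K[X]) (v : V), p • v = (Polynomial.aeval T' p) v := fun p v => rfl
  have : IsScalarTower K K[X] V := ⟨fun k p v => by
    rw [hdef, hdef, map_smul]; rfl⟩
  have : SMulCommClass K[X] E V := ⟨fun p e v => by
    rw [hdef, hdef, map_smul]⟩
  have hX : ∀ v : V, (X : K[X]) • v = T v := fun v => by
    rw [hdef, Polynomial.aeval_X]; rfl
  refine comm_of_poly (K := K) ?_ hinf e e' v
  intro A A' hc
  have key : ∀ B B' : Submodule K[X] V, IsCompl B B' → ∀ v ∈ B, T v ∈ B ∧ T.symm v ∈ B := by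
    intro B B' hc v hv
    have h1 : ∀ w ∈ B, T w ∈ B := fun w hw => by rw [← hX]; exact B.smul_mem _ hw
    have h2 : ∀ w ∈ B', T w ∈ B' := fun w hw => by rw [← hX]; exact B'.smul_mem _ hw
    refine ⟨h1 v hv, ?_⟩
    have : T.symm v ∈ B ⊔ B' := by rw [hc.sup_eq_top]; exact Submodule.mem_top
    obtain ⟨a, ha, b, hb, e⟩ := Submodule.mem_sup.1 this
    have h3 : v = T a + T b := by rw [← map_add, e, LinearEquiv.apply_symm_apply]
    have h4 : T b ∈ B := by
      have : T b = v - T a := by rw [h3]; abel
      rw [this]; exact B.sub_mem hv (h1 a ha)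
    have h5 : T b = 0 := Submodule.disjoint_def.1 hc.disjoint _ h4 (h2 b hb)
    have h6 : b = 0 := by
      have := congrArg T.symm h5
      simpa using this
    rw [← e, h6, add_zero]
    exact ha
  have h := hind (A.restrictScalars K) (A'.restrictScalars K) (key A A' hc)
    (key A' A hc.symm) ?_
  · rcases h with h | h
    · left
      rw [Submodule.eq_bot_iff]
      intro v hv
      have : v ∈ A.restrictScalars K := hv
      rw [h] at this
      exact this
    · right
      rw [Submodule.eq_bot_iff]
      intro v hv
      have : v ∈ A'.restrictScalars K := hv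
      rw [h] at this
      exact this
  · constructor
    · rw [Submodule.disjoint_def]
      intro v h1 h2
      exact Submodule.disjoint_def.1 hc.disjoint v h1 h2
    · rw [codisjoint_iff, Submodule.eq_top_iff']
      intro v
      have : v ∈ A ⊔ A' := by rw [hc.sup_eq_top]; exact Submodule.mem_top
      obtain ⟨a, ha, b, hb, e⟩ := Submodule.mem_sup.1 this
      exact Submodule.mem_sup.2 ⟨a, ha, b, hb, e⟩

end

end Pool.Agent.Helper634.Node
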