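import Pool.Agent.Helper634.Node.System
import Pool.Agent.Helper634.Node.Poly

/-!
Indecomposable modules of infinite dimension and finite endolength over `K[x, y] / (x y)`: the
endomorphism ring is commutative modulo a nilpotent ideal.
-/

set_option autoImplicit false
set_option linter.unusedSectionVars false
set_option linter.unusedVariables false

namespace Pool.Agent.Helper634.Node

section

variable {K E G V : Type*} [Field K] [Ring E] [Algebra K E] [AddCommGroup G] [Module K G]
  [Module E G] [IsScalarTower K E G] [AddCommGroup V] [Module E V] [Module K V]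
  [IsScalarTower K E V] {x y : G →ₗ[E] G} {q : ℕ} {c : ZMod q → Lt} {τ : ZMod q → V ≃ₗ[E] V}
  {Γ : ZMod q → Submodule E (G × V)} [IsArtinian E G] [IsNoetherian E G] [NeZero q]

open Classical in
/-- the rank of a position -/
noncomputable def rk (x y : G →ₗ[E] G) (c : ZMod q → Lt) (i : ZMod q) : ℕ :=
  (Finset.univ.filter fun j => LPs x y (lw c j) ≤ LMs x y (lw c i)).card

theorem rk_lt (hyx : ∀ g, y (x g) = 0) {i j : ZMod q}
    (hgap : ¬ LPs x y (lw c j) ≤ LMs x y (lw c j))
    (h : LPs x y (lw c j) ≤ LMs x y (lw c i)) : rk x y c j < rk x y c i := by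
  classical
  unfold rk
  apply Finset.card_lt_card
  rw [Finset.ssubset_iff_of_subset]
  · exact ⟨j, by simpa using h, by simpa using hgap⟩
  · intro k hk
    simp only [Finset.mem_filter, Finset.mem_univ, true_and] at hk ⊢
    exact hk.trans ((LMs_le_LPs x y hyx _).trans h)

theorem rk_le (x y : G →ₗ[E] G) (c : ZMod q → Lt) (i : ZMod q) :
    rk x y c i ≤ Fintype.card (ZMod q) := Finset.card_le_univ _

theorem Sys.live [Nontrivial V] (h : Sys x y c τ Γ) (i : ZMod q) :
    Live x y (lw c i) (rw' c i) := by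
  intro hcon
  obtain ⟨v, hv⟩ := exists_ne (0 : V)
  obtain ⟨u, hu⟩ := h.ex_u i v
  exact hv ((h.zero_iff i u v hu).2 (hcon (h.mem_Np i u v hu)))

/-- the sum map -/
def sumMap (s : ZMod q → V →ₗ[K] G) : (ZMod q → V) →ₗ[K] G :=
  ∑ i, (s i).comp (LinearMap.proj i)

theorem sumMap_apply (s : ZMod q → V →ₗ[K] G) (v : ZMod q → V) :
    sumMap s v = ∑ i, s i (v i) := by
  simp [sumMap]

theorem sumMap_single (s : ZMod q → V →ₗ[K] G) (i : ZMod q) (v : V) :
    sumMap s (Pi.single i v) = s i v := by
  rw [sumMap_apply, Finset.sum_eq_single i]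
  · rw [Pi.single_eq_same]
  · intro j _ hj
    rw [Pi.single_eq_of_ne hj, map_zero]
  · intro h; exact absurd (Finset.mem_univ i) h

section tri

variable (hs : Sys x y c τ Γ) (hxy : ∀ g, x (y g) = 0) (hyx : ∀ g, y (x g) = 0) [Nontrivial V]
  (hsep : ∀ i j, i ≠ j → Sep (lw c i) (lw c j))
  (s : ZMod q → V →ₗ[K] G) (hs1 : ∀ i v, (s i v, v) ∈ Γ i)
  (f : ZMod q → G →ₗ[K] V) (hf1 : ∀ i u v, (u, v) ∈ Γ i → f i u = v)
  (hf2 : ∀ i, ∀ u ∈ LMs x y (lw c i), f i u = 0)

include hs hyx hsep hf2 in
/-- functionals vanish on lower pieces -/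
theorem tri_zero {i j : ZMod q} (hij : i ≠ j) (hr : ¬ rk x y c i < rk x y c j) {u : G}
    (hu : u ∈ LPs x y (lw c j)) : f i u = 0 := by
  rcases sep_order x y hyx (hsep i j hij) with h | h
  · exact absurd (rk_lt hyx (hs.live i).gapL h) hr
  · exact hf2 i u (h hu)

include hs hyx hsep hf2 hf1 in
/-- the top coordinate -/
theorem top_coord {i : ZMod q} {u : ZMod q → G} {v : ZMod q → V} (hu : ∀ j, (u j, v j) ∈ Γ j)
    (hz : ∀ j, rk x y c i < rk x y c j → u j = 0) : f i (∑ j, u j) = v i := by
  rw [map_sum, Finset.sum_eq_single i]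
  · exact hf1 i _ _ (hu i)
  · intro j _ hj
    by_cases hr : rk x y c i < rk x y c j
    · rw [hz j hr, map_zero]
    · exact tri_zero hs hyx hsep f hf2 (Ne.symm hj) hr (hs.mem_Np j _ _ (hu j)).1
  · intro h; exact absurd (Finset.mem_univ i) h

include hs hyx hsep hf2 hf1 hs1 in
theorem top_coord' {i : ZMod q} {v : ZMod q → V}
    (hz : ∀ j, rk x y c i < rk x y c j → v j = 0) : f i (sumMap s v) = v i := by
  rw [sumMap_apply]
  exact top_coord hs hyx hsep f hf1 hf2 (fun j => hs1 j (v j))
    fun j hj => by rw [hz j hj, map_zero]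

include hs hyx hsep hf2 hf1 hs1 in
theorem inj_aux {v : ZMod q → V} (h : ∀ i, f i (sumMap s v) = 0) : v = 0 := by
  have key : ∀ k, ∀ i, Fintype.card (ZMod q) - rk x y c i = k → v i = 0 := by
    intro k
    induction k using Nat.strong_induction_on with
    | _ k ih =>
      intro i hi
      rw [← top_coord' hs hyx hsep s hs1 f hf1 hf2 (i := i) (v := v), h i]
      intro j hj
      have h1 := rk_le x y c j
      exact ih _ (by omega) j rfl
  funext i
  exact key _ i rfl

include hs hyx hsep hf2 hf1 hs1 in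
theorem surj_aux (n : ℕ) (w : ZMod q → V) (hw : ∀ j, n ≤ rk x y c j → w j = 0) :
    ∃ v : ZMod q → V, (∀ j, n ≤ rk x y c j → v j = 0) ∧ ∀ i, f i (sumMap s v) = w i := by
  classical
  induction n generalizing w with
  | zero =>
    have : w = 0 := funext fun j => hw j (Nat.zero_le _)
    subst this
    exact ⟨0, fun _ _ => rfl, fun i => by rw [map_zero, map_zero]; rfl⟩
  | succ n ih =>
    set v0 : ZMod q → V := fun j => if rk x y c j = n then w j else 0 with hv0
    have h1 : ∀ i, n ≤ rk x y c i → f i (sumMap s v0) = w i := by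
      intro i hi
      rw [top_coord' hs hyx hsep s hs1 f hf1 hf2]
      · by_cases h : rk x y c i = n
        · simp only [hv0, if_pos h]
        · simp only [hv0, if_neg h]
          exact (hw i (by omega)).symm
      · intro j hj
        simp only [hv0]
        rw [if_neg (by omega)]
    obtain ⟨v1, hv1, hv1'⟩ := ih (fun i => w i - f i (sumMap s v0)) fun j hj => by
      show w j - f j (sumMap s v0) = 0
      rw [h1 j hj, sub_self]
    refine ⟨v0 + v1, fun j hj => ?_, fun i => ?_⟩
    · rw [Pi.add_apply, hv1 j (by omega), add_zero]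
      simp only [hv0]
      rw [if_neg (by omega)]
    · rw [map_add, map_add, hv1']
      abel

include hs hyx hsep hf2 hf1 hs1 in
/-- elements killing the pieces lower the filtration -/
theorem lower (hsurj : Function.Surjective (sumMap s)) {ψ : E} (hψ : ∀ v : V, ψ • v = 0) {n : ℕ}
    {g : G} (hg : ∃ w : ZMod q → V, (∀ j, n + 1 ≤ rk x y c j → w j = 0) ∧ g = sumMap s w) :
    ∃ w : ZMod q → V, (∀ j, n ≤ rk x y c j → w j = 0) ∧ ψ • g = sumMap s w := by
  obtain ⟨w, hw, rfl⟩ := hg
  obtain ⟨w', hw'⟩ := hsurj (ψ • sumMap s w)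
  refine ⟨w', ?_, hw'.symm⟩
  have key : ∀ k, ∀ i, Fintype.card (ZMod q) - rk x y c i = k → n ≤ rk x y c i → w' i = 0 := by
    intro k
    induction k using Nat.strong_induction_on with
    | _ k ih =>
      intro i hi hn
      rw [← top_coord' hs hyx hsep s hs1 f hf1 hf2 (i := i) (v := w'), hw', sumMap_apply,
        Finset.smul_sum]
      · rw [top_coord hs hyx hsep f hf1 hf2 (u := fun j => ψ • s j (w j)) (v := fun _ => 0)]
        · intro j
          have := (Γ j).smul_mem ψ (hs1 j (w j))
          have e : ψ • (s j (w j), w j) = (ψ • s j (w j), (0 : V)) := by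
            rw [Prod.smul_mk, hψ]
          rw [e] at this
          exact this
        · intro j hj
          show ψ • s j (w j) = 0
          rw [hw j (by omega), map_zero, smul_zero]
      · intro j hj
        have h1 := rk_le x y c j
        exact ih _ (by omega) j rfl (by omega)
  exact fun j hj => key _ j rfl hj

end tri

end

section

variable {K E G : Type*} [Field K] [Ring E] [Algebra K E] [AddCommGroup G] [Module K G]
  [Module E G] [IsScalarTower K E G]

/-- A module over `K[x, y] / (x y)` of finite length over a ring `E` of endomorphisms, which is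
indecomposable and infinite dimensional over `K`: products of many commutators in `E` vanish. -/
theorem node_PI (x y : G →ₗ[E] G) (hxy : ∀ g, x (y g) = 0) (hyx : ∀ g, y (x g) = 0)
    [IsNoetherian E G] [IsArtinian E G] [Nontrivial G]
    (hind : ∀ W W' : Submodule K G, (∀ g ∈ W, x g ∈ W ∧ y g ∈ W) →
      (∀ g ∈ W', x g ∈ W' ∧ y g ∈ W') → IsCompl W W' → W = ⊥ ∨ W' = ⊥)
    (hinf : ¬ Module.Finite K G) :
    ∃ n : ℕ, ∀ a b : Fin n → E, ∀ g : G,
      (List.ofFn (fun i => a i * b i - b i * a i)).prod • g = 0 := by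
  classical
  obtain ⟨q, hq, c, he, hmin, hlive⟩ := exists_cyc x y hxy hyx
  have hsep : ∀ i j, i ≠ j → Sep (lw c i) (lw c j) := fun i j hij => sep_of_min c he hmin hij
  have hlive0 : Live x y (lw c 0) (rw' c 0) := by
    have e1 : lw c 0 = fun n : ℕ => c (-1 - n) := by
      funext n; simp only [lw, zero_sub]
    have e2 : rw' c 0 = fun n : ℕ => c n := by
      funext n; simp only [rw', zero_add]
    rw [e1, e2]; exact hlive
  have : Nontrivial (Vq x y c) := nontrivial_Vq x y c hlive0
  obtain ⟨τ, Γ, hs, hτ⟩ := exists_sys x y c hxy hyx he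
  obtain ⟨s, hs1, hs2⟩ := hs.primal (K := K) hxy hyx
  obtain ⟨f, hf1, hf2, hf3⟩ := hs.dual (K := K) hxy hyx
  have hinj : ∀ v : ZMod q → Vq x y c, (∀ i, f i (sumMap s v) = 0) → v = 0 := fun v hv =>
    inj_aux hs hyx hsep s hs1 f hf1 hf2 hv
  have hsur : ∀ w : ZMod q → Vq x y c, ∃ v, ∀ i, f i (sumMap s v) = w i := fun w => by
    obtain ⟨v, -, hv⟩ := surj_aux hs hyx hsep s hs1 f hf1 hf2 (Fintype.card (ZMod q) + 1) w
      fun j hj => absurd (rk_le x y c j) (by omega)
    exact ⟨v, hv⟩
  have hSinj : Function.Injective (sumMap s) := by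
    rw [injective_iff_map_eq_zero]
    intro v hv
    exact hinj v fun i => by rw [hv, map_zero]
  -- the submodules attached to subspaces of `V`
  let Wa : Submodule K (Vq x y c) → Submodule K G := fun A =>
    (Submodule.pi Set.univ fun _ : ZMod q => A).map (sumMap s)
  have hWa : ∀ A g, g ∈ Wa A ↔ ∃ v : ZMod q → Vq x y c, (∀ i, v i ∈ A) ∧ sumMap s v = g := by
    intro A g
    constructor
    · rintro ⟨v, hv, rfl⟩
      exact ⟨v, fun i => hv i (Set.mem_univ i), rfl⟩
    · rintro ⟨v, hv, rfl⟩
      exact ⟨v, fun i _ => hv i, rfl⟩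
  have hsWa : ∀ A i v, v ∈ A → s i v ∈ Wa A := by
    intro A i v hv
    rw [hWa]
    refine ⟨Pi.single i v, fun j => ?_, sumMap_single s i v⟩
    by_cases h : j = i
    · subst h; rw [Pi.single_eq_same]; exact hv
    · rw [Pi.single_eq_of_ne h]; exact A.zero_mem
  have hstab : ∀ A : Submodule K (Vq x y c), (∀ i, ∀ v ∈ A, τ i v ∈ A ∧ (τ i).symm v ∈ A) →
      ∀ g ∈ Wa A, x g ∈ Wa A ∧ y g ∈ Wa A := by
    intro A hA g hg
    obtain ⟨v, hv, rfl⟩ := (hWa A g).1 hg
    rw [sumMap_apply, map_sum, map_sum]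
    refine ⟨(Wa A).sum_mem fun i _ => ?_, (Wa A).sum_mem fun j _ => ?_⟩
    · have hr := hs2 i (v i)
      cases hc : c i with
      | a =>
        rw [hc] at hr
        rw [(mem_Rl_a x y).1 hr]
        exact hsWa A _ _ (hA i _ (hv i)).1
      | b =>
        rw [hc] at hr
        rw [← (mem_Rl_b x y).1 hr, hxy]
        exact (Wa A).zero_mem
      | e =>
        rw [hc] at hr
        rw [((mem_Rl_e x y).1 hr).1]
        exact (Wa A).zero_mem
    · have hr := hs2 (j - 1) ((τ (j - 1)).symm (v j))
      rw [sub_add_cancel, LinearEquiv.apply_symm_apply] at hr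
      cases hc : c (j - 1) with
      | a =>
        rw [hc] at hr
        rw [← (mem_Rl_a x y).1 hr, hyx]
        exact (Wa A).zero_mem
      | b =>
        rw [hc] at hr
        rw [(mem_Rl_b x y).1 hr]
        exact hsWa A _ _ (hA (j - 1) _ (hv j)).2
      | e =>
        rw [hc] at hr
        rw [((mem_Rl_e x y).1 hr).2]
        exact (Wa A).zero_mem
  -- the kernel of the functionals
  let F : G →ₗ[K] (ZMod q → Vq x y c) := LinearMap.pi f
  have hFstab : ∀ g ∈ LinearMap.ker F, x g ∈ LinearMap.ker F ∧ y g ∈ LinearMap.ker F := by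
    intro g hg
    have hg' : ∀ i, f i g = 0 := fun i => congrFun (LinearMap.mem_ker.1 hg) i
    constructor
    · rw [LinearMap.mem_ker]
      funext j
      show f j (x g) = 0
      have hd := hf3 (j - 1)
      rw [sub_add_cancel] at hd
      cases hc : c (j - 1) with
      | a =>
        rw [hc] at hd
        have := hd g
        rw [this]
        show τ (j - 1) (f (j - 1) g) = 0
        rw [hg', map_zero]
      | b =>
        rw [hc] at hd
        have := hd (x g)
        rw [this, hyx, map_zero]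
      | e =>
        rw [hc] at hd
        exact hd.2 g
    · rw [LinearMap.mem_ker]
      funext i
      show f i (y g) = 0
      have hd := hf3 i
      cases hc : c i with
      | a =>
        rw [hc] at hd
        have h1 := hd (y g)
        rw [hxy, map_zero] at h1
        have h2 : τ i (f i (y g)) = 0 := h1.symm
        exact (τ i).map_eq_zero_iff.1 h2
      | b =>
        rw [hc] at hd
        have h1 := hd g
        rw [hg' (i + 1)] at h1
        have h2 : τ i (f i (y g)) = 0 := h1.symm
        exact (τ i).map_eq_zero_iff.1 h2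
      | e =>
        rw [hc] at hd
        have h2 : τ i (f i (y g)) = 0 := hd.1 g
        exact (τ i).map_eq_zero_iff.1 h2
  have hWtop : ∀ g, g ∈ Wa ⊤ ↔ g ∈ LinearMap.range (sumMap s) := fun g => by
    rw [hWa]
    exact ⟨fun ⟨v, _, h⟩ => ⟨v, h⟩, fun ⟨v, h⟩ => ⟨v, fun _ => Submodule.mem_top, h⟩⟩
  have hcompl : IsCompl (Wa ⊤) (LinearMap.ker F) := by
    constructor
    · rw [Submodule.disjoint_def]
      intro g h1 h2
      obtain ⟨v, rfl⟩ := (hWtop g).1 h1
      rw [hinj v fun i => congrFun (LinearMap.mem_ker.1 h2) i, map_zero]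
    · rw [codisjoint_iff, Submodule.eq_top_iff']
      intro g
      obtain ⟨v, hv⟩ := hsur (F g)
      refine Submodule.mem_sup.2 ⟨sumMap s v, (hWtop _).2 ⟨v, rfl⟩, g - sumMap s v, ?_, by abel⟩
      rw [LinearMap.mem_ker, map_sub, sub_eq_zero]
      funext i
      exact (hv i).symm
  have hSsurj : Function.Surjective (sumMap s) := by
    rcases hind _ _ (hstab ⊤ fun _ _ _ => ⟨Submodule.mem_top, Submodule.mem_top⟩) hFstab hcompl
      with h | h
    · exfalso
      obtain ⟨v, hv⟩ := exists_ne (0 : Vq x y c)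
      have h1 : s 0 v ∈ Wa ⊤ := hsWa ⊤ 0 v Submodule.mem_top
      rw [h] at h1
      have h2 : s 0 v = 0 := (Submodule.mem_bot K).1 h1
      apply hv
      rw [← hf1 0 _ _ (hs1 0 v), h2, map_zero]
    · intro g
      have : g ∈ Wa ⊤ ⊔ LinearMap.ker F := by rw [hcompl.sup_eq_top]; exact Submodule.mem_top
      rw [h, sup_bot_eq] at this
      exact (hWtop g).1 this
  -- `V` is infinite dimensional
  have hVinf : ¬ Module.Finite K (Vq x y c) := by
    intro hfin
    exact hinf (Module.Finite.of_surjective (sumMap s) hSsurj)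
  -- `V` is indecomposable
  have hVind : ∀ A A' : Submodule K (Vq x y c),
      (∀ v ∈ A, τ (-1) v ∈ A ∧ (τ (-1)).symm v ∈ A) →
      (∀ v ∈ A', τ (-1) v ∈ A' ∧ (τ (-1)).symm v ∈ A') → IsCompl A A' → A = ⊥ ∨ A' = ⊥ := by
    have hext : ∀ A : Submodule K (Vq x y c), (∀ v ∈ A, τ (-1) v ∈ A ∧ (τ (-1)).symm v ∈ A) →
        ∀ i, ∀ v ∈ A, τ i v ∈ A ∧ (τ i).symm v ∈ A := by
      intro A hA i v hv
      by_cases hi : i = -1
      · subst hi; exact hA v hv
      · have h1 := hτ i hi
        refine ⟨by rw [h1]; exact hv, ?_⟩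
        have : (τ i).symm v = v := by
          rw [LinearEquiv.symm_apply_eq, h1]
        rw [this]; exact hv
    have hbot : ∀ A : Submodule K (Vq x y c), Wa A = ⊥ → A = ⊥ := by
      intro A hA
      rw [Submodule.eq_bot_iff]
      intro v hv
      have h1 := hsWa A 0 v hv
      rw [hA] at h1
      rw [← hf1 0 _ _ (hs1 0 v), (Submodule.mem_bot K).1 h1, map_zero]
    intro A A' hA hA' hAA
    have hc : IsCompl (Wa A) (Wa A') := by
      constructor
      · rw [Submodule.disjoint_def]
        intro g h1 h2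
        obtain ⟨v, hv, rfl⟩ := (hWa A g).1 h1
        obtain ⟨v', hv', h3⟩ := (hWa A' _).1 h2
        have h4 := hSinj h3
        subst h4
        have : v' = 0 := funext fun i => Submodule.disjoint_def.1 hAA.disjoint _ (hv i) (hv' i)
        rw [this, map_zero]
      · rw [codisjoint_iff, Submodule.eq_top_iff']
        intro g
        obtain ⟨v, rfl⟩ := hSsurj g
        have : ∀ i, ∃ a ∈ A, ∃ b ∈ A', a + b = v i := fun i => by
          have : v i ∈ A ⊔ A' := by rw [hAA.sup_eq_top]; exact Submodule.mem_top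
          exact Submodule.mem_sup.1 this
        choose a ha b hb hab using this
        refine Submodule.mem_sup.2 ⟨sumMap s a, (hWa A _).2 ⟨a, ha, rfl⟩, sumMap s b,
          (hWa A' _).2 ⟨b, hb, rfl⟩, ?_⟩
        rw [← map_add]
        congr 1
        exact funext hab
    rcases hind _ _ (hstab A (hext A hA)) (hstab A' (hext A' hA')) hc with h | h
    · exact Or.inl (hbot A h)
    · exact Or.inr (hbot A' h)
  -- commutators kill `V`
  have hcomm : ∀ (e e' : E) (v : Vq x y c), (e * e' - e' * e) • v = 0 := fun e e' v =>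
    comm_of_aut (K := K) (τ (-1)) hVind hVinf e e' v
  -- the filtration
  refine ⟨Fintype.card (ZMod q) + 1, fun a b g => ?_⟩
  have hl : ∀ (l : List E), (∀ ψ ∈ l, ∀ v : Vq x y c, ψ • v = 0) → ∀ (m : ℕ) (g : G),
      (∃ w : ZMod q → Vq x y c, (∀ j, l.length + m ≤ rk x y c j → w j = 0) ∧ g = sumMap s w) →
      ∃ w : ZMod q → Vq x y c, (∀ j, m ≤ rk x y c j → w j = 0) ∧ l.prod • g = sumMap s w := by
    intro l
    induction l with
    | nil =>
      intro _ m g hg
      simpa using hg
    | cons ψ l ih =>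
      intro hψ m g hg
      rw [List.prod_cons, mul_smul]
      refine lower hs hyx hsep s hs1 f hf1 hf2 hSsurj (hψ ψ List.mem_cons_self) ?_
      refine ih (fun φ hφ => hψ φ (List.mem_cons_of_mem _ hφ)) (m + 1) g ?_
      obtain ⟨w, hw, hg⟩ := hg
      exact ⟨w, fun j hj => hw j (by rw [List.length_cons]; omega), hg⟩
  obtain ⟨v, hv⟩ := hSsurj g
  obtain ⟨w, hw, hg⟩ := hl (List.ofFn fun i => a i * b i - b i * a i) (fun ψ hψ v => by
    obtain ⟨i, rfl⟩ := (List.mem_ofFn' _ _).1 hψ
    exact hcomm _ _ _) 0 g ⟨v, fun j hj => by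
      rw [List.length_ofFn] at hj
      exact absurd (rk_le x y c j) (by omega), hv.symm⟩
  rw [hg]
  have : w = 0 := funext fun j => hw j (Nat.zero_le _)
  rw [this, map_zero]

end

end Pool.Agent.Helper634.Node
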