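import Pool.Agent.Helper634.Node.Refine

/-!
The pieces attached to a pair of words, and the passage from a piece to the next one.
-/

set_option autoImplicit false
set_option linter.unusedSectionVars false

namespace Pool.Agent.Helper634.Node

section

variable {E G : Type*} [Ring E] [AddCommGroup G] [Module E G] (x y : G →ₗ[E] G)

/-- the upper filtration of a right word -/
def RPs (R : ℕ → Lt) : Submodule E G := LPs y x (fun k => (R k).sw)

/-- the lower filtration of a right word -/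
def RMs (R : ℕ → Lt) : Submodule E G := LMs y x (fun k => (R k).sw)

/-- numerator of the piece -/
def Np (L R : ℕ → Lt) : Submodule E G := LPs x y L ⊓ RPs x y R

/-- denominator of the piece -/
def Nm (L R : ℕ → Lt) : Submodule E G := (LMs x y L ⊓ RPs x y R) ⊔ (LPs x y L ⊓ RMs x y R)

theorem Np_mirror (L R : ℕ → Lt) :
    Np y x (fun k => (R k).sw) (fun k => (L k).sw) = Np x y L R := by
  unfold Np RPs
  simp only [Lt.sw_sw]
  exact inf_comm _ _

theorem Nm_mirror (L R : ℕ → Lt) :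
    Nm y x (fun k => (R k).sw) (fun k => (L k).sw) = Nm x y L R := by
  unfold Nm RPs RMs
  simp only [Lt.sw_sw]
  rw [sup_comm, inf_comm (LPs y x _) (LMs x y _), inf_comm (LMs y x _) (LPs x y _)]

/-- the relation of a letter -/
def Rl : Lt → Submodule E (G × G)
  | .a =>
    { carrier := {p | x p.1 = p.2}
      add_mem' := fun {p q} hp hq => by
        simp only [Set.mem_ofPred_eq] at *; simp [hp, hq]
      zero_mem' := by simp
      smul_mem' := fun c p hp => by simp only [Set.mem_ofPred_eq] at *; simp [hp] }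
  | .b =>
    { carrier := {p | y p.2 = p.1}
      add_mem' := fun {p q} hp hq => by
        simp only [Set.mem_ofPred_eq] at *; simp [hp, hq]
      zero_mem' := by simp
      smul_mem' := fun c p hp => by simp only [Set.mem_ofPred_eq] at *; simp [hp] }
  | .e =>
    { carrier := {p | x p.1 = 0 ∧ y p.2 = 0}
      add_mem' := fun {p q} hp hq => by
        simp only [Set.mem_ofPred_eq] at *; simp [hp.1, hq.1, hp.2, hq.2]
      zero_mem' := by simp
      smul_mem' := fun c p hp => by simp only [Set.mem_ofPred_eq] at *; simp [hp.1, hp.2] }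

theorem mem_Rl_a {u u' : G} : (u, u') ∈ Rl x y .a ↔ x u = u' := Iff.rfl
theorem mem_Rl_b {u u' : G} : (u, u') ∈ Rl x y .b ↔ y u' = u := Iff.rfl
theorem mem_Rl_e {u u' : G} : (u, u') ∈ Rl x y .e ↔ x u = 0 ∧ y u' = 0 := Iff.rfl

/-- moving one letter to the right -/
structure Step (c : Lt) (L R L' R' : ℕ → Lt) : Prop where
  l0 : L' 0 = c
  l : ∀ k, L' (k + 1) = L k
  r0 : R 0 = c
  r : ∀ k, R (k + 1) = R' k

theorem Step.mirror {c : Lt} {L R L' R' : ℕ → Lt} (h : Step c L R L' R') :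
    Step c.sw (fun k => (R' k).sw) (fun k => (L' k).sw) (fun k => (R k).sw)
      (fun k => (L k).sw) where
  l0 := by rw [h.r0]
  l k := by rw [h.r]
  r0 := by rw [h.l0]
  r k := by rw [h.l]

variable [IsArtinian E G] [IsNoetherian E G]

theorem Step.LPs {c : Lt} {L R L' R' : ℕ → Lt} (h : Step c L R L' R') :
    LPs x y L' = fp x y c (LPs x y L) := by
  rw [LPs_cons, h.l0]
  have : (fun k => L' (k + 1)) = L := funext h.l
  rw [this]

theorem Step.LMs {c : Lt} {L R L' R' : ℕ → Lt} (h : Step c L R L' R') :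
    LMs x y L' = fm x y c (LMs x y L) := by
  rw [LMs_cons, h.l0]
  have : (fun k => L' (k + 1)) = L := funext h.l
  rw [this]

theorem Step.RPs {c : Lt} {L R L' R' : ℕ → Lt} (h : Step c L R L' R') :
    RPs x y R = fp y x c.sw (RPs x y R') := h.mirror.LPs y x

theorem Step.RMs {c : Lt} {L R L' R' : ℕ → Lt} (h : Step c L R L' R') :
    RMs x y R = fm y x c.sw (RMs x y R') := h.mirror.LMs y x

theorem p1a {L R L' R' : ℕ → Lt} (h : Step Lt.a L R L' R') {u : G} (hu : u ∈ Np x y L R) :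
    ∃ u' ∈ Np x y L' R', x u = u' := by
  refine ⟨x u, ⟨?_, ?_⟩, rfl⟩
  · show x u ∈ Node.LPs x y L'
    rw [h.LPs]; exact Submodule.mem_map_of_mem hu.1
  · have := hu.2
    rw [h.RPs x y] at this
    exact this

theorem p2a {L R L' R' : ℕ → Lt} (h : Step Lt.a L R L' R') {u' : G} (hu : u' ∈ Np x y L' R') :
    ∃ u ∈ Np x y L R, x u = u' := by
  have h1 : u' ∈ Node.LPs x y L' := hu.1
  rw [h.LPs] at h1
  obtain ⟨u, h2, rfl⟩ := h1
  refine ⟨u, ⟨h2, ?_⟩, rfl⟩
  show u ∈ Node.RPs x y R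
  rw [h.RPs x y]
  exact hu.2

theorem p3a {L R L' R' : ℕ → Lt} (h : Step Lt.a L R L' R') {u : G} (hu : u ∈ Nm x y L R) :
    x u ∈ Nm x y L' R' := by
  obtain ⟨α, hα, β, hβ, rfl⟩ := Submodule.mem_sup.1 hu
  rw [map_add]
  refine Submodule.add_mem_sup ⟨?_, ?_⟩ ⟨?_, ?_⟩
  · show x α ∈ Node.LMs x y L'
    rw [h.LMs]; exact Submodule.mem_map_of_mem hα.1
  · have := hα.2
    rw [h.RPs x y] at this
    exact this
  · show x β ∈ Node.LPs x y L'
    rw [h.LPs]; exact Submodule.mem_map_of_mem hβ.1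
  · have := hβ.2
    rw [h.RMs x y] at this
    exact this

theorem p4a (hyx : ∀ g, y (x g) = 0) {L R L' R' : ℕ → Lt} (h : Step Lt.a L R L' R') {u : G}
    (hu : u ∈ Np x y L R) (hu' : x u ∈ Nm x y L' R') : u ∈ Nm x y L R := by
  obtain ⟨α', hα, β', hβ, he⟩ := Submodule.mem_sup.1 hu'
  have hα1 : α' ∈ Node.LMs x y L' := hα.1
  have hβ1 : β' ∈ Node.LPs x y L' := hβ.1
  rw [h.LMs] at hα1
  rw [h.LPs] at hβ1
  obtain ⟨α, hα1, rfl⟩ := hα1
  obtain ⟨β, hβ1, rfl⟩ := hβ1
  have hRP : Node.RPs x y R = (Node.RPs x y R').comap x := h.RPs x y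
  have hRM : Node.RMs x y R = (Node.RMs x y R').comap x := h.RMs x y
  have hk : x (u - α - β) = 0 := by
    rw [map_sub, map_sub, ← he]; abel
  have hk1 : u - α - β ∈ Node.LPs x y L :=
    sub_mem (sub_mem hu.1 (LMs_le_LPs x y hyx L hα1)) hβ1
  have hk2 : u - α - β ∈ Node.RMs x y R := by
    rw [hRM, Submodule.mem_comap, hk]; exact zero_mem _
  have e : u = α + (β + (u - α - β)) := by abel
  rw [e]
  refine Submodule.add_mem_sup ⟨hα1, ?_⟩ (add_mem ⟨hβ1, ?_⟩ ⟨hk1, hk2⟩)
  · show α ∈ Node.RPs x y R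
    rw [hRP]; exact hα.2
  · show β ∈ Node.RMs x y R
    rw [hRM]; exact hβ.2

variable (hxy : ∀ g, x (y g) = 0) (hyx : ∀ g, y (x g) = 0)

theorem p1 {c : Lt} (hc : c ≠ Lt.e) {L R L' R' : ℕ → Lt} (h : Step c L R L' R') {u : G}
    (hu : u ∈ Np x y L R) : ∃ u' ∈ Np x y L' R', (u, u') ∈ Rl x y c := by
  cases c with
  | a => exact p1a x y h hu
  | b =>
    rw [← Np_mirror] at hu ⊢
    exact p2a y x h.mirror hu
  | e => exact absurd rfl hc

theorem p2 {c : Lt} (hc : c ≠ Lt.e) {L R L' R' : ℕ → Lt} (h : Step c L R L' R') {u' : G}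
    (hu : u' ∈ Np x y L' R') : ∃ u ∈ Np x y L R, (u, u') ∈ Rl x y c := by
  cases c with
  | a => exact p2a x y h hu
  | b =>
    rw [← Np_mirror] at hu ⊢
    exact p1a y x h.mirror hu
  | e => exact absurd rfl hc

include hxy hyx in
theorem p3 {c : Lt} (hc : c ≠ Lt.e) {L R L' R' : ℕ → Lt} (h : Step c L R L' R') {u u' : G}
    (hr : (u, u') ∈ Rl x y c) (hu : u ∈ Nm x y L R) (hu' : u' ∈ Np x y L' R') :
    u' ∈ Nm x y L' R' := by
  cases c with
  | a =>
    rw [← (mem_Rl_a x y).1 hr]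
    exact p3a x y h hu
  | b =>
    rw [← (mem_Rl_b x y).1 hr] at hu
    rw [← Nm_mirror] at hu ⊢
    rw [← Np_mirror] at hu'
    exact p4a y x hxy h.mirror hu' hu
  | e => exact absurd rfl hc

include hxy hyx in
theorem p4 {c : Lt} (hc : c ≠ Lt.e) {L R L' R' : ℕ → Lt} (h : Step c L R L' R') {u u' : G}
    (hr : (u, u') ∈ Rl x y c) (hu : u ∈ Np x y L R) (hu' : u' ∈ Nm x y L' R') :
    u ∈ Nm x y L R := by
  cases c with
  | a =>
    rw [← (mem_Rl_a x y).1 hr] at hu'
    exact p4a x y hyx h hu hu'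
  | b =>
    rw [← (mem_Rl_b x y).1 hr]
    rw [← Nm_mirror] at hu' ⊢
    exact p3a y x h.mirror hu'
  | e => exact absurd rfl hc

/-- nonvanishing of the piece -/
def Live (L R : ℕ → Lt) : Prop := ¬ Np x y L R ≤ Nm x y L R

include hxy hyx in
theorem Live.right {c : Lt} (hc : c ≠ Lt.e) {L R L' R' : ℕ → Lt} (h : Step c L R L' R')
    (hl : Live x y L R) : Live x y L' R' := by
  intro hcon
  apply hl
  intro u hu
  obtain ⟨u', hu', hr⟩ := p1 x y hc h hu
  exact p4 x y hxy hyx hc h hr hu (hcon hu')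

include hxy hyx in
theorem Live.left {c : Lt} (hc : c ≠ Lt.e) {L R L' R' : ℕ → Lt} (h : Step c L R L' R')
    (hl : Live x y L' R') : Live x y L R := by
  intro hcon
  apply hl
  intro u' hu'
  obtain ⟨u, hu, hr⟩ := p2 x y hc h hu'
  exact p3 x y hxy hyx hc h hr (hcon hu) hu'

theorem Live.congr {L R L' R' : ℕ → Lt} (hL : Eff L L') (hR : Eff R R')
    (hl : Live x y L R) : Live x y L' R' := by
  have hR' : Eff (fun k => (R k).sw) (fun k => (R' k).sw) := by
    intro n hn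
    show (R n).sw = (R' n).sw
    rw [hR n fun m hm => fun h => hn m hm (Lt.sw_eq_e.2 h)]
  unfold Live Np Nm Node.RPs Node.RMs at *
  rw [hL.LPs_eq, hL.LMs_eq, hR'.LPs_eq, hR'.LMs_eq] at hl
  exact hl

theorem Live.gapL {L R : ℕ → Lt} (hl : Live x y L R) :
    ¬ Node.LPs x y L ≤ Node.LMs x y L := by
  intro h
  apply hl
  exact fun u hu => Submodule.mem_sup_left ⟨h hu.1, hu.2⟩

theorem Live.gapR {L R : ℕ → Lt} (hl : Live x y L R) :
    ¬ Node.RPs x y R ≤ Node.RMs x y R := by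
  intro h
  apply hl
  exact fun u hu => Submodule.mem_sup_right ⟨hu.1, h hu.2⟩

theorem exists_live [Nontrivial G] : ∃ L R, Live x y L R := by
  have h1 : ¬ ((⊤ : Submodule E G) ≤ ⊥) := by
    intro h
    obtain ⟨g, hg⟩ := exists_ne (0 : G)
    exact hg ((Submodule.mem_bot E).1 (h (Submodule.mem_top : g ∈ ⊤)))
  obtain ⟨L, hL⟩ := exists_word x y h1
  have h2 : ¬ (Node.LPs x y L ≤ Node.LMs x y L) := by
    simpa using hL
  obtain ⟨R', hR'⟩ := exists_word y x h2
  refine ⟨L, fun k => (R' k).sw, ?_⟩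
  unfold Live Np Nm Node.RPs Node.RMs
  simp only [Lt.sw_sw]
  intro hcon
  apply hR'
  refine hcon.trans (sup_le ?_ ?_)
  · exact inf_le_left.trans le_sup_right
  · exact le_sup_left

end

end Pool.Agent.Helper634.Node
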