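import Pool.Agent.Helper634.Node.Cyc
import Pool.Agent.Helper634.Node.LinTools

/-!
The splitting lemma, for maps into the module.
-/

set_option autoImplicit false
set_option linter.unusedSectionVars false
set_option linter.unusedVariables false

namespace Pool.Agent.Helper634.Node

/-- left word at the position `i` -/
def lw {q : ℕ} (c : ZMod q → Lt) (i : ZMod q) : ℕ → Lt := fun n => c (i - 1 - n)

/-- right word at the position `i` -/
def rw' {q : ℕ} (c : ZMod q → Lt) (i : ZMod q) : ℕ → Lt := fun n => c (i + n)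

theorem step_cyc {q : ℕ} (c : ZMod q → Lt) (i : ZMod q) :
    Step (c i) (lw c i) (rw' c i) (lw c (i + 1)) (rw' c (i + 1)) where
  l0 := by simp [lw]
  l k := by simp only [lw]; congr 1; push_cast; ring
  r0 := by simp [rw']
  r k := by simp only [rw']; congr 1; push_cast; ring

section

variable {E G : Type*} [Ring E] [AddCommGroup G] [Module E G] (x y : G →ₗ[E] G)

theorem Rl_mirror {c : Lt} {u u' : G} : (u', u) ∈ Rl y x c.sw ↔ (u, u') ∈ Rl x y c := by
  cases c
  · exact Iff.rfl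
  · exact Iff.rfl
  · exact and_comm

variable [IsArtinian E G] [IsNoetherian E G]

theorem pred_exists (hyx : ∀ g, y (x g) = 0) {c : Lt} {L R L' R' : ℕ → Lt}
    (h : Step c L R L' R') {N : Submodule E G} {u' : G} (h1 : u' ∈ fm x y c N)
    (h2 : u' ∈ RPs x y R') : ∃ u ∈ N ⊓ RPs x y R, (u, u') ∈ Rl x y c := by
  have hR := h.RPs x y
  cases c with
  | a =>
    obtain ⟨u, hu, rfl⟩ := h1
    refine ⟨u, ⟨hu, ?_⟩, rfl⟩
    show u ∈ Node.RPs x y R
    rw [hR]
    exact h2
  | b =>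
    refine ⟨y u', ⟨h1, ?_⟩, rfl⟩
    show y u' ∈ Node.RPs x y R
    rw [hR]
    exact Submodule.mem_map_of_mem h2
  | e =>
    refine ⟨0, zero_mem _, ?_⟩
    obtain ⟨u, rfl⟩ := h1
    exact ⟨map_zero x, hyx u⟩

theorem succ_exists (hxy : ∀ g, x (y g) = 0) {c : Lt} {L R L' R' : ℕ → Lt}
    (h : Step c L R L' R') {N : Submodule E G} {u : G} (h1 : u ∈ fm y x c.sw N)
    (h2 : u ∈ LPs x y L) : ∃ u' ∈ N ⊓ LPs x y L', (u, u') ∈ Rl x y c := by
  have h2' : u ∈ RPs y x (fun k => (L k).sw) := by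
    unfold RPs
    simpa only [Lt.sw_sw] using h2
  obtain ⟨u', hu', hr⟩ := pred_exists y x hxy h.mirror h1 h2'
  refine ⟨u', ?_, (Rl_mirror x y).1 hr⟩
  unfold RPs at hu'
  simpa only [Lt.sw_sw] using hu'

end

section

variable {E G V : Type*} [Ring E] [AddCommGroup G] [Module E G] [AddCommGroup V] [Module E V]

/-- A system of compatible identifications of the pieces with a module `V`. -/
structure Sys (x y : G →ₗ[E] G) {q : ℕ} (c : ZMod q → Lt) (τ : ZMod q → V ≃ₗ[E] V)
    (Γ : ZMod q → Submodule E (G × V)) : Prop where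
  mem_Np : ∀ i u v, (u, v) ∈ Γ i → u ∈ Np x y (lw c i) (rw' c i)
  ex_u : ∀ i v, ∃ u, (u, v) ∈ Γ i
  ex_v : ∀ i u, u ∈ Np x y (lw c i) (rw' c i) → ∃ v, (u, v) ∈ Γ i
  zero_iff : ∀ i u v, (u, v) ∈ Γ i → (v = 0 ↔ u ∈ Nm x y (lw c i) (rw' c i))
  trans : ∀ i u v u', c i ≠ Lt.e → (u, v) ∈ Γ i → (u, u') ∈ Rl x y (c i) →
    u' ∈ Np x y (lw c (i + 1)) (rw' c (i + 1)) → (u', τ i v) ∈ Γ (i + 1)

variable {x y : G →ₗ[E] G} {q : ℕ} {c : ZMod q → Lt} {τ : ZMod q → V ≃ₗ[E] V}
  {Γ : ZMod q → Submodule E (G × V)}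

theorem LM_le_LMs' (w : ℕ → Lt) (n : ℕ) : LM x y w n ≤ LMs x y w := le_LMs x y w n

theorem Nm_le_Np (hxy : ∀ g, x (y g) = 0) (hyx : ∀ g, y (x g) = 0) (L R : ℕ → Lt) :
    Nm x y L R ≤ Np x y L R :=
  sup_le (inf_le_inf_right _ (LMs_le_LPs x y hyx _)) (inf_le_inf_left _ (LMs_le_LPs y x hxy _))

theorem Sys.of_Nm (h : Sys x y c τ Γ) (hxy : ∀ g, x (y g) = 0) (hyx : ∀ g, y (x g) = 0)
    {i : ZMod q} {u : G} (hu : u ∈ Nm x y (lw c i) (rw' c i)) : (u, (0 : V)) ∈ Γ i := by
  obtain ⟨v, hv⟩ := h.ex_v i u (Nm_le_Np hxy hyx _ _ hu)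
  have h0 : v = 0 := (h.zero_iff i u v hv).2 hu
  subst h0
  exact hv

theorem Sys.add_Nm (h : Sys x y c τ Γ) (hxy : ∀ g, x (y g) = 0) (hyx : ∀ g, y (x g) = 0)
    {i : ZMod q} {u u' : G} {v : V} (hu : (u, v) ∈ Γ i)
    (hu' : u' - u ∈ Nm x y (lw c i) (rw' c i)) : (u', v) ∈ Γ i := by
  have := (Γ i).add_mem hu (h.of_Nm hxy hyx hu')
  simpa using this

theorem Sys.sub_Nm (h : Sys x y c τ Γ) {i : ZMod q} {u u' : G} {v : V} (hu : (u, v) ∈ Γ i)
    (hu' : (u', v) ∈ Γ i) : u' - u ∈ Nm x y (lw c i) (rw' c i) := by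
  have := (Γ i).sub_mem hu' hu
  refine (h.zero_iff i _ _ ?_).1 (sub_self v)
  exact this

theorem Sys.uniq (h : Sys x y c τ Γ) {i : ZMod q} {u : G} {v v' : V} (hu : (u, v) ∈ Γ i)
    (hu' : (u, v') ∈ Γ i) : v = v' := by
  have := (Γ i).sub_mem hu hu'
  have h1 : ((0 : G), v - v') ∈ Γ i := by simpa using this
  exact sub_eq_zero.1 ((h.zero_iff i _ _ h1).2 (zero_mem _))

variable [IsArtinian E G] [IsNoetherian E G] [NeZero q]

theorem exists_LM_unif (x y : G →ₗ[E] G) (W : ZMod q → ℕ → Lt) :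
    ∃ m, ∀ i, LM x y (W i) m = LMs x y (W i) := by
  choose n hn using fun i => exists_LM_eq x y (W i)
  exact ⟨Finset.univ.sup n, fun i => hn i _ (Finset.le_sup (Finset.mem_univ i))⟩

theorem exists_LP_unif (x y : G →ₗ[E] G) (W : ZMod q → ℕ → Lt) :
    ∃ m, ∀ i, LP x y (W i) m = LPs x y (W i) := by
  choose n hn using fun i => exists_LP_eq x y (W i)
  exact ⟨Finset.univ.sup n, fun i => hn i _ (Finset.le_sup (Finset.mem_univ i))⟩

variable {K : Type*} [Field K] [Algebra K E] [Module K G] [IsScalarTower K E G] [Module K V]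
  [IsScalarTower K E V]

/-- tuples of maps with related values -/
def Wp (K : Type*) [Field K] [Algebra K E] [Module K G] [IsScalarTower K E G] [Module K V]
    [IsScalarTower K E V] (x y : G →ₗ[E] G) (c : ZMod q → Lt) (τ : ZMod q → V ≃ₗ[E] V) :
    AddSubgroup ((ZMod q → V →ₗ[K] G) × (ZMod q → V →ₗ[K] G)) where
  carrier := {p | ∀ i v, (p.1 i v, p.2 (i + 1) (τ i v)) ∈ Rl x y (c i)}
  zero_mem' := fun i _ => (Rl x y (c i)).zero_mem
  add_mem' := fun {p p'} h h' i v => (Rl x y (c i)).add_mem (h i v) (h' i v)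
  neg_mem' := fun {p} h i v => (Rl x y (c i)).neg_mem (h i v)

/-- tuples of maps with values in given submodules -/
def Vals (K : Type*) [Field K] [Algebra K E] [Module K G] [IsScalarTower K E G] (V : Type*)
    [AddCommGroup V] [Module K V] (N : ZMod q → Submodule E G) :
    AddSubgroup (ZMod q → V →ₗ[K] G) where
  carrier := {p | ∀ i v, p i v ∈ N i}
  zero_mem' := fun i _ => (N i).zero_mem
  add_mem' := fun {p p'} h h' i v => (N i).add_mem (h i v) (h' i v)
  neg_mem' := fun {p} h i v => (N i).neg_mem (h i v)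

theorem LM_cyc (x y : G →ₗ[E] G) (c : ZMod q → Lt) (i : ZMod q) (k : ℕ) :
    LM x y (lw c (i + 1)) (k + 1) = fm x y (c i) (LM x y (lw c i) k) := by
  have h := step_cyc c i
  show fm x y (lw c (i + 1) 0) (LM x y (fun k => lw c (i + 1) (k + 1)) k) = _
  rw [h.l0, funext h.l]

theorem LP_cyc (x y : G →ₗ[E] G) (c : ZMod q → Lt) (i : ZMod q) (k : ℕ) :
    LP x y (lw c (i + 1)) (k + 1) = fp x y (c i) (LP x y (lw c i) k) := by
  have h := step_cyc c i
  show fp x y (lw c (i + 1) 0) (LP x y (fun k => lw c (i + 1) (k + 1)) k) = _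
  rw [h.l0, funext h.l]

theorem RM_cyc (x y : G →ₗ[E] G) (c : ZMod q → Lt) (i : ZMod q) (k : ℕ) :
    LM y x (fun n => (rw' c i n).sw) (k + 1)
      = fm y x (c i).sw (LM y x (fun n => (rw' c (i + 1) n).sw) k) := by
  have h := step_cyc c i
  show fm y x (rw' c i 0).sw (LM y x (fun k => (rw' c i (k + 1)).sw) k) = _
  rw [h.r0, funext fun k => congrArg Lt.sw (h.r k)]

theorem RP_cyc (x y : G →ₗ[E] G) (c : ZMod q → Lt) (i : ZMod q) (k : ℕ) :
    LP y x (fun n => (rw' c i n).sw) (k + 1)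
      = fp y x (c i).sw (LP y x (fun n => (rw' c (i + 1) n).sw) k) := by
  have h := step_cyc c i
  show fp y x (rw' c i 0).sw (LP y x (fun k => (rw' c i (k + 1)).sw) k) = _
  rw [h.r0, funext fun k => congrArg Lt.sw (h.r k)]

theorem Sys.primal (h : Sys x y c τ Γ) (hxy : ∀ g, x (y g) = 0) (hyx : ∀ g, y (x g) = 0) :
    ∃ s : ZMod q → V →ₗ[K] G, (∀ i v, (s i v, v) ∈ Γ i) ∧
      ∀ i v, (s i v, s (i + 1) (τ i v)) ∈ Rl x y (c i) := by
  classical
  -- sections
  have h1 : ∀ i, ∃ s : V →ₗ[K] G, ∀ v, (s v, v) ∈ Γ i := fun i => by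
    obtain ⟨s, hs⟩ := select
      (((Γ i).restrictScalars K).comap ((LinearMap.snd K V G).prod (LinearMap.fst K V G)))
      (fun v => h.ex_u i v)
    exact ⟨s, hs⟩
  choose s hs using h1
  -- successors
  have h2 : ∀ i, ∃ β : V →ₗ[K] G, (∀ v, (β v, τ i v) ∈ Γ (i + 1)) ∧
      ∀ v, (s i v, β v) ∈ Rl x y (c i) := fun i => by
    by_cases hc : c i = Lt.e
    · refine ⟨(s (i + 1)).comp ((τ i).toLinearMap.restrictScalars K), fun v => hs _ _,
        fun v => ?_⟩
      rw [hc]
      have hst := step_cyc c i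
      have a1 := (h.mem_Np _ _ _ (hs i v)).2
      have a2 := (h.mem_Np _ _ _ (hs (i + 1) (τ i v))).1
      rw [hst.RPs x y, hc] at a1
      rw [hst.LPs x y, hc] at a2
      exact ⟨a1, a2⟩
    · obtain ⟨β, hβ⟩ := select_succ ((Rl x y (c i)).restrictScalars K)
        ((Np x y (lw c (i + 1)) (rw' c (i + 1))).restrictScalars K) (s i)
        (fun v => by
          obtain ⟨u', hu', hr⟩ := p1 x y hc (step_cyc c i) (h.mem_Np _ _ _ (hs i v))
          exact ⟨u', hu', hr⟩)
      exact ⟨β, fun v => h.trans i _ _ _ hc (hs i v) (hβ v).2 (hβ v).1, fun v => (hβ v).2⟩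
  choose β hβ1 hβ2 using h2
  let t : ZMod q → V →ₗ[K] G := fun j =>
    (β (j - 1)).comp ((τ (j - 1)).symm.toLinearMap.restrictScalars K)
  have ht : ∀ i v, t (i + 1) (τ i v) = β i v := fun i v => by
    simp only [t, add_sub_cancel_right]
    show β i ((τ i).symm (τ i v)) = _
    rw [LinearEquiv.symm_apply_apply]
  have hW : (s, t) ∈ Wp K x y c τ := fun i v => by
    show (s i v, t (i + 1) (τ i v)) ∈ _
    rw [ht]; exact hβ2 i v
  have hδ : ∀ i v, (t - s) i v ∈ Nm x y (lw c i) (rw' c i) := fun i v => by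
    have e : (t (i - 1 + 1) (τ (i - 1) ((τ (i - 1)).symm v)), v) ∈ Γ (i - 1 + 1) := by
      rw [ht]
      have := hβ1 (i - 1) ((τ (i - 1)).symm v)
      rwa [LinearEquiv.apply_symm_apply] at this
    rw [LinearEquiv.apply_symm_apply, sub_add_cancel] at e
    exact h.sub_Nm (hs i v) e
  -- decomposition
  have h3 : ∀ i, ∃ α β : V →ₗ[K] G,
      (∀ v, α v ∈ (LMs x y (lw c i) ⊓ RPs x y (rw' c i)).restrictScalars K) ∧
      (∀ v, β v ∈ (LPs x y (lw c i) ⊓ RMs x y (rw' c i)).restrictScalars K) ∧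
      (t - s) i = α + β := fun i => by
    apply select_split
    intro v
    have := hδ i v
    unfold Nm at this
    obtain ⟨a, ha, b, hb, e⟩ := Submodule.mem_sup.1 this
    exact Submodule.mem_sup.2 ⟨a, ha, b, hb, e⟩
  choose α β' hα hβ' hsum using h3
  obtain ⟨m, hm⟩ := exists_LM_unif x y (fun i => lw c i)
  obtain ⟨n, hn⟩ := exists_LM_unif y x (fun i k => (rw' c i k).sw)
  obtain ⟨g, hg, hgs⟩ := fix_rel (Wp K x y c τ)
    (fun k => Vals K V fun i => LM x y (lw c i) k ⊓ RPs x y (rw' c i))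
    (fun k => Vals K V fun i => LPs x y (lw c i) ⊓ LM y x (fun n => (rw' c i n).sw) k)
    (Vals K V fun i => Nm x y (lw c i) (rw' c i))
    (fun h hh => by
      funext i; ext v
      exact (Submodule.mem_bot E).1 (hh i v).1)
    (fun h hh => by
      funext i; ext v
      exact (Submodule.mem_bot E).1 (hh i v).2)
    (fun k h' hh' => by
      have : ∀ i, ∃ β : V →ₗ[K] G,
          ∀ v, β v ∈ (LM x y (lw c i) k ⊓ RPs x y (rw' c i)).restrictScalars K ∧
            (β v, h' (i + 1) (τ i v)) ∈ (Rl x y (c i)).restrictScalars K := fun i =>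
        select_pred ((Rl x y (c i)).restrictScalars K)
          ((LM x y (lw c i) k ⊓ RPs x y (rw' c i)).restrictScalars K)
          ((h' (i + 1)).comp ((τ i).toLinearMap.restrictScalars K)) (fun v => by
            have a := hh' (i + 1) (τ i v)
            have a1 := a.1
            rw [LM_cyc] at a1
            exact pred_exists x y hyx (step_cyc c i) a1 a.2)
      choose b hb using this
      exact ⟨b, fun i v => (hb i v).1, fun i v => (hb i v).2⟩)
    (fun k h' hh' => by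
      have : ∀ i, ∃ β : V →ₗ[K] G,
          ∀ v, β v ∈ (LM y x (fun n => (rw' c (i + 1) n).sw) k
              ⊓ LPs x y (lw c (i + 1))).restrictScalars K ∧
            (h' i v, β v) ∈ (Rl x y (c i)).restrictScalars K := fun i =>
        select_succ ((Rl x y (c i)).restrictScalars K)
          ((LM y x (fun n => (rw' c (i + 1) n).sw) k
              ⊓ LPs x y (lw c (i + 1))).restrictScalars K)
          (h' i) (fun v => by
            have a := hh' i v
            have a1 := a.2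
            rw [RM_cyc] at a1
            exact succ_exists x y hxy (step_cyc c i) a1 a.1)
      choose b hb using this
      refine ⟨fun j => (b (j - 1)).comp ((τ (j - 1)).symm.toLinearMap.restrictScalars K),
        fun i v => ?_, fun i v => ?_⟩
      · have := (hb (i - 1) ((τ (i - 1)).symm v)).1
        rw [sub_add_cancel] at this
        exact ⟨this.2, this.1⟩
      · show (h' i v, _) ∈ Rl x y (c i)
        simp only [add_sub_cancel_right]
        show (h' i v, b i ((τ i).symm (τ i v))) ∈ Rl x y (c i)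
        rw [LinearEquiv.symm_apply_apply]
        exact (hb i v).2)
    (fun k p hp i v => Submodule.mem_sup_left ⟨le_LMs x y _ k (hp i v).1, (hp i v).2⟩)
    (fun k p hp i v => Submodule.mem_sup_right ⟨(hp i v).1, le_LMs y x _ k (hp i v).2⟩)
    m n s t α β' hW
    (fun i v => by
      have := hα i v
      refine ⟨?_, this.2⟩
      show α i v ∈ LM x y (lw c i) m
      rw [hm i]; exact this.1)
    (fun i v => by
      have := hβ' i v
      refine ⟨this.1, ?_⟩
      show β' i v ∈ LM y x (fun k => (rw' c i k).sw) n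
      rw [hn i]; exact this.2)
    (funext hsum)
  exact ⟨g, fun i v => h.add_Nm hxy hyx (hs i v) (hgs i v), hg⟩

end

end Pool.Agent.Helper634.Node
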