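import Pool.Agent.Helper634.Node.Words

/-!
Every nonzero subquotient is met by some word.
-/

set_option autoImplicit false
set_option linter.unusedSectionVars false

namespace Pool.Agent.Helper634.Node

section

variable {E G : Type*} [Ring E] [AddCommGroup G] [Module E G] (x y : G →ₗ[E] G)

theorem foldr_fp_mono (l : List Lt) {N N' : Submodule E G} (h : N ≤ N') :
    l.foldr (fp x y) N ≤ l.foldr (fp x y) N' := by
  induction l with
  | nil => exact h
  | cons c l ih => exact fp_mono x y c ih

theorem foldr_fp_const {l : List Lt} (hl : Lt.e ∈ l) (N N' : Submodule E G) :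
    l.foldr (fp x y) N = l.foldr (fp x y) N' := by
  induction l with
  | nil => simp at hl
  | cons c l ih =>
    rw [List.foldr_cons, List.foldr_cons]
    by_cases hc : c = Lt.e
    · rw [hc]; rfl
    · rw [ih ((List.mem_cons.1 hl).resolve_left (Ne.symm hc))]

theorem foldr_fm_const {l : List Lt} (hl : Lt.e ∈ l) (N N' : Submodule E G) :
    l.foldr (fm x y) N = l.foldr (fm x y) N' := by
  induction l with
  | nil => simp at hl
  | cons c l ih =>
    rw [List.foldr_cons, List.foldr_cons]
    by_cases hc : c = Lt.e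
    · rw [hc]; rfl
    · rw [ih ((List.mem_cons.1 hl).resolve_left (Ne.symm hc))]

theorem foldr_fm_eq {l : List Lt} (hl : Lt.e ∉ l) (N : Submodule E G) :
    l.foldr (fm x y) N = l.foldr (fp x y) N := by
  induction l with
  | nil => rfl
  | cons c l ih =>
    rw [List.foldr_cons, List.foldr_cons, ih (fun h => hl (List.mem_cons_of_mem _ h)),
      fm_eq_fp x y (fun h => hl (by rw [h]; exact List.mem_cons_self))]

theorem LP_eq_foldr (w : ℕ → Lt) (n : ℕ) :
    LP x y w n = ((List.range n).map w).foldr (fp x y) ⊤ := by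
  induction n generalizing w with
  | zero => rfl
  | succ n ih =>
    rw [List.range_succ_eq_map, List.map_cons, List.foldr_cons, List.map_map]
    show fp x y (w 0) (LP x y (fun k => w (k + 1)) n) = _
    rw [ih]
    rfl

theorem LM_eq_foldr (w : ℕ → Lt) (n : ℕ) :
    LM x y w n = ((List.range n).map w).foldr (fm x y) ⊥ := by
  induction n generalizing w with
  | zero => rfl
  | succ n ih =>
    rw [List.range_succ_eq_map, List.map_cons, List.foldr_cons, List.map_map]
    show fm x y (w 0) (LM x y (fun k => w (k + 1)) n) = _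
    rw [ih]
    rfl

instance : Nonempty Lt := ⟨Lt.a⟩

/-- the piece of the finite word `l` on the subquotient `B / A` is nonzero -/
def Good (A B : Submodule E G) (l : List Lt) : Prop :=
  ¬ (B ⊓ l.foldr (fp x y) ⊤ ≤ (B ⊓ l.foldr (fm x y) ⊥) ⊔ A)

theorem good_step {A B : Submodule E G} {l : List Lt}
    (h : Good x y A B l) : ∃ c, Good x y A B (l ++ [c]) := by
  by_cases hl : Lt.e ∈ l
  · refine ⟨Lt.e, ?_⟩
    unfold Good
    rw [List.foldr_append, List.foldr_append, foldr_fp_const x y hl _ ⊤,
      foldr_fm_const x y hl _ ⊥]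
    exact h
  · by_contra hcon
    push Not at hcon
    apply h
    unfold Good at hcon
    have h1 := hcon Lt.b
    have h2 := hcon Lt.e
    have h3 := hcon Lt.a
    rw [not_not, List.foldr_append, List.foldr_append, foldr_fm_eq x y hl] at h1 h2 h3
    rw [foldr_fm_eq x y hl]
    have eb : [Lt.b].foldr (fp x y) ⊤ = ⊤ := Submodule.comap_top _
    have eb' : [Lt.b].foldr (fm x y) ⊥ = LinearMap.ker y := rfl
    have ee : [Lt.e].foldr (fp x y) ⊤ = LinearMap.ker y := rfl
    have ee' : [Lt.e].foldr (fm x y) ⊥ = LinearMap.range x := rfl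
    have ea : [Lt.a].foldr (fp x y) ⊤ = LinearMap.range x := Submodule.map_top x
    have ea' : [Lt.a].foldr (fm x y) ⊥ = ⊥ := Submodule.map_bot x
    rw [eb, eb'] at h1
    rw [ee, ee'] at h2
    rw [ea, ea'] at h3
    exact h1.trans (sup_le (h2.trans (sup_le h3 le_sup_right)) le_sup_right)

variable [IsArtinian E G] [IsNoetherian E G]

theorem exists_word {A B : Submodule E G} (h : ¬ B ≤ A) :
    ∃ w : ℕ → Lt, ¬ (B ⊓ LPs x y w ≤ (B ⊓ LMs x y w) ⊔ A) := by
  classical
  have h0 : Good x y A B [] := by
    unfold Good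
    simpa using h
  choose! nx hnx using fun l (hl : Good x y A B l) => good_step x y hl
  let pr : ℕ → List Lt := fun n => Nat.rec [] (fun _ l => l ++ [nx l]) n
  have hpr : ∀ n, pr (n + 1) = pr n ++ [nx (pr n)] := fun n => rfl
  have hg : ∀ n, Good x y A B (pr n) := by
    intro n
    induction n with
    | zero => exact h0
    | succ n ih => rw [hpr]; exact hnx _ ih
  have hw : ∀ n, (List.range n).map (fun k => nx (pr k)) = pr n := by
    intro n
    induction n with
    | zero => rfl
    | succ n ih => rw [List.range_succ, List.map_append, ih, hpr]; rfl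
  refine ⟨fun k => nx (pr k), ?_⟩
  obtain ⟨n, hn⟩ := exists_LP_eq x y (fun k => nx (pr k))
  obtain ⟨m, hm⟩ := exists_LM_eq x y (fun k => nx (pr k))
  have := hg (max n m)
  unfold Good at this
  rw [← hw, ← LP_eq_foldr, ← LM_eq_foldr, hn _ (le_max_left _ _), hm _ (le_max_right _ _)] at this
  exact this

end

end Pool.Agent.Helper634.Node
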