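import Pool.Agent.Helper634.Node.Dual

/-!
Construction of the system of identifications.
-/

set_option autoImplicit false
set_option linter.unusedSectionVars false
set_option linter.unusedVariables false

namespace Pool.Agent.Helper634.Node

section

variable {E G V : Type*} [Ring E] [AddCommGroup G] [Module E G] [AddCommGroup V] [Module E V]

/-- identification of `N / N'` with `V` -/
structure Idt (N N' : Submodule E G) (Γ : Submodule E (G × V)) : Prop where
  mem : ∀ u v, (u, v) ∈ Γ → u ∈ N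
  ex_u : ∀ v, ∃ u, (u, v) ∈ Γ
  ex_v : ∀ u, u ∈ N → ∃ v, (u, v) ∈ Γ
  zero_iff : ∀ u v, (u, v) ∈ Γ → (v = 0 ↔ u ∈ N')

theorem Idt.uniq {N N' : Submodule E G} {Γ : Submodule E (G × V)} (h : Idt N N' Γ) {u : G}
    {v v' : V} (hu : (u, v) ∈ Γ) (hu' : (u, v') ∈ Γ) : v = v' := by
  have h1 : ((0 : G), v - v') ∈ Γ := by simpa using Γ.sub_mem hu hu'
  exact sub_eq_zero.1 ((h.zero_iff _ _ h1).2 (zero_mem _))

theorem Idt.compare {N N' : Submodule E G} {Γ Γ' : Submodule E (G × V)} (h : Idt N N' Γ)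
    (h' : Idt N N' Γ') : ∃ T : V ≃ₗ[E] V, ∀ u v, (u, v) ∈ Γ' → (u, T v) ∈ Γ := by
  have ex : ∀ v, ∃ w, ∃ u, (u, v) ∈ Γ' ∧ (u, w) ∈ Γ := fun v => by
    obtain ⟨u, hu⟩ := h'.ex_u v
    obtain ⟨w, hw⟩ := h.ex_v u (h'.mem _ _ hu)
    exact ⟨w, u, hu, hw⟩
  choose T hT using ex
  have key : ∀ u v w, (u, v) ∈ Γ' → (u, w) ∈ Γ → T v = w := fun u v w h1 h2 => by
    obtain ⟨u', h3, h4⟩ := hT v
    have a1 : (u - u', (0 : V)) ∈ Γ' := by simpa using Γ'.sub_mem h1 h3
    have a2 : u - u' ∈ N' := (h'.zero_iff _ _ a1).1 rfl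
    have a3 : (u - u', w - T v) ∈ Γ := Γ.sub_mem h2 h4
    exact (sub_eq_zero.1 ((h.zero_iff _ _ a3).2 a2)).symm
  let T' : V →ₗ[E] V :=
    { toFun := T
      map_add' := fun v v' => by
        obtain ⟨u, h1, h2⟩ := hT v
        obtain ⟨u', h3, h4⟩ := hT v'
        exact key _ _ _ (Γ'.add_mem h1 h3) (Γ.add_mem h2 h4)
      map_smul' := fun r v => by
        obtain ⟨u, h1, h2⟩ := hT v
        exact key _ _ _ (Γ'.smul_mem r h1) (Γ.smul_mem r h2) }
  have hb : Function.Bijective T' := by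
    constructor
    · rw [injective_iff_map_eq_zero]
      intro v hv
      obtain ⟨u, h1, h2⟩ := hT v
      have h3 : T v = 0 := hv
      exact (h'.zero_iff _ _ h1).2 ((h.zero_iff _ _ h2).1 h3)
    · intro w
      obtain ⟨u, hu⟩ := h.ex_u w
      obtain ⟨v, hv⟩ := h'.ex_v u (h.mem _ _ hu)
      exact ⟨v, key _ _ _ hv hu⟩
  refine ⟨LinearEquiv.ofBijective T' hb, fun u v huv => ?_⟩
  obtain ⟨w, hw⟩ := h.ex_v u (h'.mem _ _ huv)
  have : LinearEquiv.ofBijective T' hb v = w := key _ _ _ huv hw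
  rw [this]; exact hw

variable (x y : G →ₗ[E] G)

/-- transport along a letter -/
def nxt (c : Lt) (N : Submodule E G) (Γ : Submodule E (G × V)) : Submodule E (G × V) where
  carrier := {p | p.1 ∈ N ∧ ∃ u, (u, p.2) ∈ Γ ∧ (u, p.1) ∈ Rl x y c}
  zero_mem' := ⟨N.zero_mem, 0, Γ.zero_mem, (Rl x y c).zero_mem⟩
  add_mem' := by
    rintro p p' ⟨h1, u, h2, h3⟩ ⟨h1', u', h2', h3'⟩
    exact ⟨N.add_mem h1 h1', u + u', Γ.add_mem h2 h2', (Rl x y c).add_mem h3 h3'⟩
  smul_mem' := by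
    rintro r p ⟨h1, u, h2, h3⟩
    exact ⟨N.smul_mem r h1, r • u, Γ.smul_mem r h2, (Rl x y c).smul_mem r h3⟩

variable [IsArtinian E G] [IsNoetherian E G]

theorem Idt.nxt (hxy : ∀ g, x (y g) = 0) (hyx : ∀ g, y (x g) = 0) {c : Lt} (hc : c ≠ Lt.e)
    {L R L' R' : ℕ → Lt} (hs : Step c L R L' R') {Γ : Submodule E (G × V)}
    (h : Idt (Np x y L R) (Nm x y L R) Γ) :
    Idt (Np x y L' R') (Nm x y L' R') (nxt x y c (Np x y L' R') Γ) where
  mem := fun u v huv => huv.1
  ex_u := fun v => by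
    obtain ⟨u, hu⟩ := h.ex_u v
    obtain ⟨u', hu', hr⟩ := p1 x y hc hs (h.mem _ _ hu)
    exact ⟨u', hu', u, hu, hr⟩
  ex_v := fun u' hu' => by
    obtain ⟨u, hu, hr⟩ := p2 x y hc hs hu'
    obtain ⟨v, hv⟩ := h.ex_v u hu
    exact ⟨v, hu', u, hv, hr⟩
  zero_iff := by
    rintro u' v ⟨h1, u, h2, h3⟩
    rw [h.zero_iff u v h2]
    exact ⟨fun h4 => p3 x y hxy hyx hc hs h3 h4 h1,
      fun h4 => p4 x y hxy hyx hc hs h3 (h.mem _ _ h2) h4⟩

end

section

variable {E G : Type*} [Ring E] [AddCommGroup G] [Module E G] (x y : G →ₗ[E] G)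
variable {q : ℕ} (c : ZMod q → Lt)

/-- the piece at the position `0` -/
abbrev Vq : Type _ :=
  ↥(Np x y (lw c 0) (rw' c 0)) ⧸
    (Nm x y (lw c 0) (rw' c 0)).comap (Np x y (lw c 0) (rw' c 0)).subtype

/-- the identification at the position `0` -/
def Γ0 : Submodule E (G × Vq x y c) :=
  LinearMap.range ((Np x y (lw c 0) (rw' c 0)).subtype.prod
    ((Nm x y (lw c 0) (rw' c 0)).comap (Np x y (lw c 0) (rw' c 0)).subtype).mkQ)

theorem idt_Γ0 : Idt (Np x y (lw c 0) (rw' c 0)) (Nm x y (lw c 0) (rw' c 0)) (Γ0 x y c) where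
  mem := by
    rintro u v ⟨w, hw⟩
    have : (w : G) = u := congrArg Prod.fst hw
    rw [← this]; exact w.2
  ex_u := fun v => by
    obtain ⟨w, rfl⟩ := Submodule.Quotient.mk_surjective _ v
    exact ⟨w, w, rfl⟩
  ex_v := fun u hu => ⟨Submodule.Quotient.mk ⟨u, hu⟩, ⟨u, hu⟩, rfl⟩
  zero_iff := by
    rintro u v ⟨w, hw⟩
    have h1 : (w : G) = u := congrArg Prod.fst hw
    have h2 : Submodule.Quotient.mk w = v := congrArg Prod.snd hw
    rw [← h1, ← h2, Submodule.Quotient.mk_eq_zero]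
    exact Iff.rfl

theorem nontrivial_Vq (h : Live x y (lw c 0) (rw' c 0)) : Nontrivial (Vq x y c) := by
  rw [Submodule.Quotient.nontrivial_iff]
  intro htop
  apply h
  intro u hu
  have : (⟨u, hu⟩ : ↥(Np x y (lw c 0) (rw' c 0))) ∈
    (Nm x y (lw c 0) (rw' c 0)).comap (Np x y (lw c 0) (rw' c 0)).subtype := by
    rw [htop]; exact Submodule.mem_top
  exact this

variable [IsArtinian E G] [IsNoetherian E G] [NeZero q]

/-- the identifications, by transport -/
def Γs : ℕ → Submodule E (G × Vq x y c)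
  | 0 => Γ0 x y c
  | k + 1 => nxt x y (c k) (Np x y (lw c ((k + 1 : ℕ) : ZMod q)) (rw' c ((k + 1 : ℕ) : ZMod q)))
      (Γs k)

theorem idt_Γs (hxy : ∀ g, x (y g) = 0) (hyx : ∀ g, y (x g) = 0) (k : ℕ)
    (hk : ∀ j < k, c j ≠ Lt.e) :
    Idt (Np x y (lw c (k : ZMod q)) (rw' c (k : ZMod q)))
      (Nm x y (lw c (k : ZMod q)) (rw' c (k : ZMod q))) (Γs x y c k) := by
  induction k with
  | zero => simpa [Γs] using idt_Γ0 x y c
  | succ k ih =>
    have hs := step_cyc c (k : ZMod q)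
    have e : ((k + 1 : ℕ) : ZMod q) = (k : ZMod q) + 1 := by push_cast; rfl
    rw [Γs, e]
    exact (ih fun j hj => hk j (by omega)).nxt x y hxy hyx (hk k (by omega)) hs

theorem exists_sys (hxy : ∀ g, x (y g) = 0) (hyx : ∀ g, y (x g) = 0)
    (he : ∀ k, c k = Lt.e → k = -1) :
    ∃ (τ : ZMod q → Vq x y c ≃ₗ[E] Vq x y c) (Γ : ZMod q → Submodule E (G × Vq x y c)),
      Sys x y c τ Γ ∧ ∀ i, i ≠ -1 → ∀ v, τ i v = v := by
  classical
  have hq : 0 < q := Nat.pos_of_ne_zero (NeZero.ne q)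
  have hval1 : ∀ i : ZMod q, i ≠ -1 → i.val + 1 < q := by
    intro i hi
    by_contra hcon
    apply hi
    have h1 := ZMod.val_lt i
    have h2 : i.val + 1 = q := by omega
    have h3 : ((i.val + 1 : ℕ) : ZMod q) = 0 := by rw [h2]; exact ZMod.natCast_self q
    push_cast at h3
    rw [ZMod.natCast_zmod_val] at h3
    exact eq_neg_of_add_eq_zero_left h3
  have hne : ∀ j : ℕ, j + 1 < q → c (j : ZMod q) ≠ Lt.e := by
    intro j hj h
    have h1 := he _ h
    have h2 : ((j + 1 : ℕ) : ZMod q) = 0 := by push_cast; rw [h1]; ring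
    have h3 := (ZMod.natCast_eq_zero_iff (j + 1) q).1 h2
    exact absurd (Nat.le_of_dvd (Nat.succ_pos _) h3) (by omega)
  have hid : ∀ i : ZMod q, Idt (Np x y (lw c i) (rw' c i)) (Nm x y (lw c i) (rw' c i))
      (Γs x y c i.val) := by
    intro i
    have := idt_Γs x y c hxy hyx i.val fun j hj => hne j (by
      have := ZMod.val_lt i
      omega)
    rw [ZMod.natCast_zmod_val] at this
    exact this
  have hstep : ∀ i : ZMod q, i ≠ -1 → ∀ u v u', (u, v) ∈ Γs x y c i.val →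
      (u, u') ∈ Rl x y (c i) → u' ∈ Np x y (lw c (i + 1)) (rw' c (i + 1)) →
      (u', v) ∈ Γs x y c (i + 1).val := by
    intro i hi u v u' h1 h2 h3
    have e1 : (i + 1).val = i.val + 1 := by
      have : i + 1 = ((i.val + 1 : ℕ) : ZMod q) := by
        push_cast; rw [ZMod.natCast_zmod_val]
      rw [this, ZMod.val_natCast, Nat.mod_eq_of_lt (hval1 i hi)]
    rw [e1, Γs]
    have e2 : ((i.val + 1 : ℕ) : ZMod q) = i + 1 := by
      push_cast; rw [ZMod.natCast_zmod_val]
    rw [e2, ZMod.natCast_zmod_val]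
    exact ⟨h3, u, h1, h2⟩
  by_cases hc : c (-1) = Lt.e
  · refine ⟨fun _ => LinearEquiv.refl E _, fun i => Γs x y c i.val, ?_, fun i _ v => rfl⟩
    refine ⟨fun i => (hid i).mem, fun i => (hid i).ex_u, fun i => (hid i).ex_v,
      fun i => (hid i).zero_iff, fun i u v u' hci h1 h2 h3 => ?_⟩
    have hi : i ≠ -1 := by
      rintro rfl
      exact hci hc
    exact hstep i hi u v u' h1 h2 h3
  · have hcq : ∀ j < q, c (j : ZMod q) ≠ Lt.e := by
      intro j hj h
      have h1 := he _ h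
      rw [h1] at h
      exact hc h
    have hq' := idt_Γs x y c hxy hyx q hcq
    have hq0 : ((q : ℕ) : ZMod q) = 0 := ZMod.natCast_self q
    rw [hq0] at hq'
    obtain ⟨T, hT⟩ := (idt_Γ0 x y c).compare hq'
    refine ⟨fun i => if i = -1 then T else LinearEquiv.refl E _, fun i => Γs x y c i.val, ?_,
      fun i hi v => by
        show (if i = -1 then T else LinearEquiv.refl E _) v = v
        rw [if_neg hi]; rfl⟩
    refine ⟨fun i => (hid i).mem, fun i => (hid i).ex_u, fun i => (hid i).ex_v,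
      fun i => (hid i).zero_iff, fun i u v u' hci h1 h2 h3 => ?_⟩
    by_cases hi : i = -1
    · subst hi
      have e0 : (-1 + 1 : ZMod q) = 0 := by ring
      show (u', (if (-1 : ZMod q) = -1 then T else LinearEquiv.refl E _) v) ∈ _
      rw [if_pos rfl]
      rw [e0] at h3 ⊢
      rw [ZMod.val_zero]
      show (u', T v) ∈ Γ0 x y c
      apply hT
      have e1 : (-1 : ZMod q).val + 1 = q := by
        have hlt := ZMod.val_lt (-1 : ZMod q)
        have h4 : (((-1 : ZMod q).val + 1 : ℕ) : ZMod q) = 0 := by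
          push_cast; rw [ZMod.natCast_zmod_val]; ring
        have h5 := (ZMod.natCast_eq_zero_iff _ q).1 h4
        have := Nat.le_of_dvd (Nat.succ_pos _) h5
        omega
      have e2 : Γs x y c q = Γs x y c ((-1 : ZMod q).val + 1) := by rw [e1]
      rw [e2, Γs, ZMod.natCast_zmod_val]
      refine ⟨?_, u, h1, h2⟩
      show u' ∈ _
      have e3 : (((-1 : ZMod q).val + 1 : ℕ) : ZMod q) = 0 := by rw [e1]; exact hq0
      rw [e3]
      exact h3
    · show (u', (if i = -1 then T else LinearEquiv.refl E _) v) ∈ _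
      rw [if_neg hi]
      exact hstep i hi u v u' h1 h2 h3

theorem sep_of_min (he : ∀ k, c k = Lt.e → k = -1)
    (hmin : ∀ d : ZMod q, d ≠ 0 → ∃ k, c (k + d) ≠ c k) {i j : ZMod q} (hij : i ≠ j) :
    Sep (lw c i) (lw c j) := by
  by_contra hns
  have hE := eff_of_not_sep hns
  by_cases hc : c (-1) = Lt.e
  · apply hij
    have h1 := hE i.val fun m hm h => by
      have := he _ h
      have h2 : i = (m : ZMod q) := by
        have : i - 1 - (m : ZMod q) = -1 := this
        linear_combination this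
      rw [h2, ZMod.val_natCast] at hm
      exact absurd (Nat.mod_le m q) (by omega)
    have h3 : lw c i i.val = Lt.e := by
      show c (i - 1 - (i.val : ZMod q)) = _
      rw [ZMod.natCast_zmod_val]
      have : i - 1 - i = -1 := by ring
      rw [this, hc]
    rw [h3] at h1
    have h4 : j - 1 - ((i.val : ℕ) : ZMod q) = -1 := he _ h1.symm
    rw [ZMod.natCast_zmod_val] at h4
    linear_combination -h4
  · have hall : ∀ k, c k ≠ Lt.e := by
      intro k hk
      rw [he k hk] at hk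
      exact hc hk
    obtain ⟨k, hk⟩ := hmin (j - i) (sub_ne_zero.2 (Ne.symm hij))
    apply hk
    have h1 := hE (i - 1 - k).val fun m _ => hall _
    have h2 : c (i - 1 - (((i - 1 - k).val : ℕ) : ZMod q))
      = c (j - 1 - (((i - 1 - k).val : ℕ) : ZMod q)) := h1
    rw [ZMod.natCast_zmod_val] at h2
    have e1 : i - 1 - (i - 1 - k) = k := by ring
    have e2 : j - 1 - (i - 1 - k) = k + (j - i) := by ring
    rw [e1, e2] at h2
    exact h2.symm

end

end Pool.Agent.Helper634.Node
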