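import Mathlib

/-!
Words over the letters `a` (`u' = x u`), `b` (`u = y u'`), `e` (end of a string) and the two
filtrations attached to them on a module with two operators `x`, `y` with `x y = 0 = y x`.
-/

set_option autoImplicit false
set_option linter.unusedSectionVars false

namespace Pool.Agent.Helper634.Node

/-- letters -/
inductive Lt : Type
  | a | b | e
  deriving DecidableEq

/-- exchange of the letters `a` and `b` -/
def Lt.sw : Lt → Lt
  | .a => .b
  | .b => .a
  | .e => .e

@[simp] theorem Lt.sw_sw (c : Lt) : c.sw.sw = c := by cases c <;> rfl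

theorem Lt.sw_eq_e {c : Lt} : c.sw = Lt.e ↔ c = Lt.e := by cases c <;> simp [Lt.sw]

section

variable {E G : Type*} [Ring E] [AddCommGroup G] [Module E G] (x y : G →ₗ[E] G)

/-- upper step -/
def fp : Lt → Submodule E G → Submodule E G
  | .a, N => N.map x
  | .b, N => N.comap y
  | .e, _ => LinearMap.ker y

/-- lower step -/
def fm : Lt → Submodule E G → Submodule E G
  | .a, N => N.map x
  | .b, N => N.comap y
  | .e, _ => LinearMap.range x

theorem fp_mono (c : Lt) {N N' : Submodule E G} (h : N ≤ N') : fp x y c N ≤ fp x y c N' := by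
  cases c
  · exact Submodule.map_mono h
  · exact Submodule.comap_mono h
  · exact le_rfl

theorem fm_mono (c : Lt) {N N' : Submodule E G} (h : N ≤ N') : fm x y c N ≤ fm x y c N' := by
  cases c
  · exact Submodule.map_mono h
  · exact Submodule.comap_mono h
  · exact le_rfl

theorem range_le_ker (hyx : ∀ g, y (x g) = 0) : LinearMap.range x ≤ LinearMap.ker y := by
  rintro _ ⟨g, rfl⟩
  exact hyx g

theorem fm_le_fp (hyx : ∀ g, y (x g) = 0) (c : Lt) {N N' : Submodule E G} (h : N ≤ N') :
    fm x y c N ≤ fp x y c N' := by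
  cases c
  · exact Submodule.map_mono h
  · exact Submodule.comap_mono h
  · exact range_le_ker x y hyx

theorem fm_eq_fp {c : Lt} (hc : c ≠ Lt.e) (N : Submodule E G) : fm x y c N = fp x y c N := by
  cases c
  · rfl
  · rfl
  · exact absurd rfl hc

/-- the upper filtration at level `n` -/
def LP : (ℕ → Lt) → ℕ → Submodule E G
  | _, 0 => ⊤
  | w, n + 1 => fp x y (w 0) (LP (fun k => w (k + 1)) n)

/-- the lower filtration at level `n` -/
def LM : (ℕ → Lt) → ℕ → Submodule E G
  | _, 0 => ⊥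
  | w, n + 1 => fm x y (w 0) (LM (fun k => w (k + 1)) n)

theorem LP_succ_le (w : ℕ → Lt) (n : ℕ) : LP x y w (n + 1) ≤ LP x y w n := by
  induction n generalizing w with
  | zero => exact le_top
  | succ n ih => exact fp_mono x y _ (ih _)

theorem LM_le_succ (w : ℕ → Lt) (n : ℕ) : LM x y w n ≤ LM x y w (n + 1) := by
  induction n generalizing w with
  | zero => exact bot_le
  | succ n ih => exact fm_mono x y _ (ih _)

theorem LP_anti (w : ℕ → Lt) : Antitone (LP x y w) := antitone_nat_of_succ_le (LP_succ_le x y w)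

theorem LM_mono (w : ℕ → Lt) : Monotone (LM x y w) := monotone_nat_of_le_succ (LM_le_succ x y w)

theorem LM_le_LP (hyx : ∀ g, y (x g) = 0) (w : ℕ → Lt) (n : ℕ) : LM x y w n ≤ LP x y w n := by
  induction n generalizing w with
  | zero => exact bot_le
  | succ n ih => exact fm_le_fp x y hyx _ (ih _)

theorem LM_le_LP' (hyx : ∀ g, y (x g) = 0) (w : ℕ → Lt) (n m : ℕ) :
    LM x y w n ≤ LP x y w m := by
  rcases le_total n m with h | h
  · exact (LM_mono x y w h).trans (LM_le_LP x y hyx w m)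
  · exact (LM_le_LP x y hyx w n).trans (LP_anti x y w h)

/-- the upper filtration -/
def LPs (w : ℕ → Lt) : Submodule E G := ⨅ n, LP x y w n

/-- the lower filtration -/
def LMs (w : ℕ → Lt) : Submodule E G := ⨆ n, LM x y w n

theorem LPs_le (w : ℕ → Lt) (n : ℕ) : LPs x y w ≤ LP x y w n := iInf_le _ n

theorem le_LMs (w : ℕ → Lt) (n : ℕ) : LM x y w n ≤ LMs x y w := le_iSup (LM x y w) n

theorem LMs_le_LPs (hyx : ∀ g, y (x g) = 0) (w : ℕ → Lt) : LMs x y w ≤ LPs x y w :=
  iSup_le fun n => le_iInf fun m => LM_le_LP' x y hyx w n m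

theorem LMs_le_LP (hyx : ∀ g, y (x g) = 0) (w : ℕ → Lt) (n : ℕ) : LMs x y w ≤ LP x y w n :=
  (LMs_le_LPs x y hyx w).trans (LPs_le x y w n)

theorem LM_le_LPs (hyx : ∀ g, y (x g) = 0) (w : ℕ → Lt) (n : ℕ) : LM x y w n ≤ LPs x y w :=
  (le_LMs x y w n).trans (LMs_le_LPs x y hyx w)

theorem exists_LP_eq [IsArtinian E G] (w : ℕ → Lt) : ∃ n, ∀ m, n ≤ m → LP x y w m = LPs x y w := by
  obtain ⟨n, hn⟩ := IsArtinian.monotone_stabilizes (R := E) (M := G)
    ⟨fun n => OrderDual.toDual (LP x y w n), fun i j h => LP_anti x y w h⟩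
  have hn' : ∀ m, n ≤ m → LP x y w n = LP x y w m := fun m hm => hn m hm
  refine ⟨n, fun m hm => le_antisymm (le_iInf fun k => ?_) (LPs_le x y w m)⟩
  rcases le_total m k with h | h
  · rw [← hn' m hm, hn' k (hm.trans h)]
  · exact LP_anti x y w h

theorem exists_LM_eq [IsNoetherian E G] (w : ℕ → Lt) :
    ∃ n, ∀ m, n ≤ m → LM x y w m = LMs x y w := by
  obtain ⟨n, hn⟩ := monotone_stabilizes_iff_noetherian.2 (inferInstance : IsNoetherian E G)
    ⟨LM x y w, LM_mono x y w⟩
  have hn' : ∀ m, n ≤ m → LM x y w n = LM x y w m := fun m hm => hn m hm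
  refine ⟨n, fun m hm => le_antisymm (le_LMs x y w m) (iSup_le fun k => ?_)⟩
  rcases le_total m k with h | h
  · rw [← hn' m hm, hn' k (hm.trans h)]
  · exact LM_mono x y w h

theorem LPs_cons [IsArtinian E G] (w : ℕ → Lt) :
    LPs x y w = fp x y (w 0) (LPs x y (fun k => w (k + 1))) := by
  obtain ⟨n, hn⟩ := exists_LP_eq x y w
  obtain ⟨m, hm⟩ := exists_LP_eq x y (fun k => w (k + 1))
  rw [← hn (max n m + 1) (by omega), ← hm (max n m) (by omega)]
  rfl

theorem LMs_cons [IsNoetherian E G] (w : ℕ → Lt) :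
    LMs x y w = fm x y (w 0) (LMs x y (fun k => w (k + 1))) := by
  obtain ⟨n, hn⟩ := exists_LM_eq x y w
  obtain ⟨m, hm⟩ := exists_LM_eq x y (fun k => w (k + 1))
  rw [← hn (max n m + 1) (by omega), ← hm (max n m) (by omega)]
  rfl

/-! ### comparison of words -/

/-- the words agree up to (and including) the first letter `e` -/
def Eff (w w' : ℕ → Lt) : Prop := ∀ n, (∀ m < n, w m ≠ Lt.e) → w n = w' n

/-- the words differ before or at the first letter `e` -/
def Sep (w w' : ℕ → Lt) : Prop := ∃ n, (∀ m < n, w m = w' m ∧ w m ≠ Lt.e) ∧ w n ≠ w' n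

theorem eff_of_not_sep {w w' : ℕ → Lt} (h : ¬ Sep w w') : Eff w w' := by
  intro n
  induction n using Nat.strong_induction_on with
  | _ n ih =>
    intro hn
    by_contra hne
    exact h ⟨n, fun m hm => ⟨ih m hm fun k hk => hn k (hk.trans hm), hn m hm⟩, hne⟩

theorem Eff.symm {w w' : ℕ → Lt} (h : Eff w w') : Eff w' w := by
  intro n hn
  have : ∀ m ≤ n, w m = w' m := by
    intro m
    induction m using Nat.strong_induction_on with
    | _ m ih =>
      intro hm
      exact h m fun k hk => by rw [ih k hk (hk.le.trans hm)]; exact hn k (lt_of_lt_of_le hk hm)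
  exact (this n le_rfl).symm

theorem Eff.shift {w w' : ℕ → Lt} (h : Eff w w') (h0 : w 0 ≠ Lt.e) :
    Eff (fun k => w (k + 1)) (fun k => w' (k + 1)) := by
  intro n hn
  refine h (n + 1) fun m hm => ?_
  cases m with
  | zero => exact h0
  | succ m => exact hn m (by omega)

theorem Eff.LP_eq {w w' : ℕ → Lt} (h : Eff w w') (n : ℕ) : LP x y w n = LP x y w' n := by
  induction n generalizing w w' with
  | zero => rfl
  | succ n ih =>
    have h0 : w 0 = w' 0 := h 0 (by simp)
    show fp x y (w 0) _ = fp x y (w' 0) _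
    rw [← h0]
    by_cases he : w 0 = Lt.e
    · rw [he]; rfl
    · rw [ih (h.shift he)]

theorem Eff.LM_eq {w w' : ℕ → Lt} (h : Eff w w') (n : ℕ) : LM x y w n = LM x y w' n := by
  induction n generalizing w w' with
  | zero => rfl
  | succ n ih =>
    have h0 : w 0 = w' 0 := h 0 (by simp)
    show fm x y (w 0) _ = fm x y (w' 0) _
    rw [← h0]
    by_cases he : w 0 = Lt.e
    · rw [he]; rfl
    · rw [ih (h.shift he)]

theorem Eff.LPs_eq {w w' : ℕ → Lt} (h : Eff w w') : LPs x y w = LPs x y w' := by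
  unfold LPs; simp only [h.LP_eq x y]

theorem Eff.LMs_eq {w w' : ℕ → Lt} (h : Eff w w') : LMs x y w = LMs x y w' := by
  unfold LMs; simp only [h.LM_eq x y]

variable [IsArtinian E G] [IsNoetherian E G]

theorem Sep.symm {w w' : ℕ → Lt} (h : Sep w w') : Sep w' w := by
  obtain ⟨n, hn, hne⟩ := h
  exact ⟨n, fun m hm => ⟨(hn m hm).1.symm, by rw [← (hn m hm).1]; exact (hn m hm).2⟩,
    fun h => hne h.symm⟩

theorem LPs_le_of_a {w : ℕ → Lt} (h : w 0 = Lt.a) : LPs x y w ≤ LinearMap.range x := by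
  rw [LPs_cons, h]
  exact LinearMap.map_le_range

theorem LPs_of_e {w : ℕ → Lt} (h : w 0 = Lt.e) : LPs x y w = LinearMap.ker y := by
  rw [LPs_cons, h]; rfl

theorem LMs_of_e {w : ℕ → Lt} (h : w 0 = Lt.e) : LMs x y w = LinearMap.range x := by
  rw [LMs_cons, h]; rfl

theorem LMs_of_b {w : ℕ → Lt} (h : w 0 = Lt.b) : LinearMap.ker y ≤ LMs x y w := by
  rw [LMs_cons, h]
  intro g hg
  show y g ∈ LMs x y (fun k => w (k + 1))
  rw [LinearMap.mem_ker.1 hg]
  exact zero_mem _

theorem sep_order (hyx : ∀ g, y (x g) = 0) {w w' : ℕ → Lt} (h : Sep w w') :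
    LPs x y w ≤ LMs x y w' ∨ LPs x y w' ≤ LMs x y w := by
  obtain ⟨n, hn, hne⟩ := h
  induction n generalizing w w' with
  | zero =>
    have key : ∀ w w' : ℕ → Lt, w 0 = Lt.a → w' 0 ≠ Lt.a → LPs x y w ≤ LMs x y w' := by
      intro w w' h h'
      refine (LPs_le_of_a x y h).trans ?_
      rcases hc : w' 0 with _ | _ | _
      · exact absurd hc h'
      · exact (range_le_ker x y hyx).trans (LMs_of_b x y hc)
      · rw [LMs_of_e x y hc]
    have key2 : ∀ w w' : ℕ → Lt, w 0 = Lt.e → w' 0 = Lt.b → LPs x y w ≤ LMs x y w' := by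
      intro w w' h h'
      rw [LPs_of_e x y h]
      exact LMs_of_b x y h'
    rcases hc : w 0 with _ | _ | _ <;> rcases hc' : w' 0 with _ | _ | _
    · exact absurd (hc.trans hc'.symm) hne
    · exact Or.inl (key _ _ hc (by simp [hc']))
    · exact Or.inl (key _ _ hc (by simp [hc']))
    · exact Or.inr (key _ _ hc' (by simp [hc]))
    · exact absurd (hc.trans hc'.symm) hne
    · exact Or.inr (key2 _ _ hc' hc)
    · exact Or.inr (key _ _ hc' (by simp [hc]))
    · exact Or.inl (key2 _ _ hc hc')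
    · exact absurd (hc.trans hc'.symm) hne
  | succ n ih =>
    have h0 := hn 0 (Nat.succ_pos _)
    have h1 := ih (w := fun k => w (k + 1)) (w' := fun k => w' (k + 1))
      (fun m hm => hn (m + 1) (by omega)) hne
    have e1 : LMs x y w = fp x y (w 0) (LMs x y fun k => w (k + 1)) := by
      rw [LMs_cons, fm_eq_fp x y h0.2]
    have e2 : LMs x y w' = fp x y (w 0) (LMs x y fun k => w' (k + 1)) := by
      rw [LMs_cons, fm_eq_fp x y (by rw [← h0.1]; exact h0.2), ← h0.1]
    rw [e1, e2, LPs_cons x y w, LPs_cons x y w', ← h0.1]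
    rcases h1 with h1 | h1
    · exact Or.inl (fp_mono x y _ h1)
    · exact Or.inr (fp_mono x y _ h1)

end

end Pool.Agent.Helper634.Node
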